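import Mathlib.LinearAlgebra.Dimension.Finrank
import Mathlib.RingTheory.Finiteness.Defs
import Mathlib.Algebra.Algebra.Subalgebra.Lattice
import Mathlib.CategoryTheory.Category.Init
import Mathlib.Algebra.Module.Injective
import Mathlib.RingTheory.GradedAlgebra.Basic

/-!
Definitions for the statements on Gorenstein sequences.
-/

namespace Pool.Agent.MP_708e57_al

universe u

/-- The top index of the `l`-th Macaulay expansion of `n`: the largest `a` with `C(a, l) ≤ n`. -/
def macTop (l n : ℕ) : ℕ := Nat.findGreatest (fun a => a.choose l ≤ n) (n + l)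

/-- Macaulay's bound `n^{<l>}`: if `n = C(a_l, l) + C(a_{l-1}, l-1) + ...` is the greedy expansion
then `mac l n = C(a_l + 1, l + 1) + C(a_{l-1} + 1, l) + ...`. -/
def mac : ℕ → ℕ → ℕ
  | 0, _ => 0
  | l + 1, n =>
    (macTop (l + 1) n + 1).choose (l + 2) + mac l (n - (macTop (l + 1) n).choose (l + 1))

/-- Macaulay's numerical condition for an M-vector (O-sequence). -/
def IsOSeq (t : ℕ → ℕ) : Prop := t 0 = 1 ∧ ∀ l, 1 ≤ l → t (l + 1) ≤ mac l (t l)

/-- `h` is the Hilbert function of an Artinian standard graded Gorenstein (self-injective)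
`K`-algebra of socle degree `d`. -/
def IsGorSeq (K : Type u) [Field K] (d : ℕ) (h : ℕ → ℕ) : Prop :=
  ∃ (A : Type u) (_ : CommRing A) (_ : Algebra K A) (G : ℕ → Submodule K A)
    (_ : GradedAlgebra G),
    G 0 = 1 ∧ Algebra.adjoin K (G 1 : Set A) = ⊤ ∧ Module.Finite K A ∧ Module.Injective A A ∧
    (∀ i, Module.finrank K (G i) = h i) ∧ h d ≠ 0 ∧ ∀ i, d < i → h i = 0

/-- The symmetric sequence `(1, T_1 + T_{d-1} + s, ..., T_i + T_{d-i} + s, ..., 1)` where
`T_i = t_0 + ... + t_i`. -/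
def extSeq (d : ℕ) (t : ℕ → ℕ) (s i : ℕ) : ℕ :=
  if i = 0 ∨ i = d then 1
  else if i < d then (∑ j ∈ Finset.range (i + 1), t j) + (∑ j ∈ Finset.range (d - i + 1), t j) + s
  else 0

end Pool.Agent.MP_708e57_al
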