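import Mathlib.Data.Finsupp.Weight
import Mathlib.Algebra.Order.Antidiag.FinsuppEquiv
import Pool.Agent.MP_708e57_al.Defs

-- ======== part 0: formerly Pool.Agent.MP_708e57_al.Numeric
section MrgPart0

/-!
Numerical lemmas on Macaulay expansions.
-/

namespace Pool.Agent.MP_708e57_al

open Finset

/-- value of an expansion -/
def val (l : ℕ) (b : ℕ → ℕ) : ℕ := ∑ i ∈ range l, (b i).multichoose (i + 1)

/-- raised value of an expansion -/
def up (l : ℕ) (b : ℕ → ℕ) : ℕ := ∑ i ∈ range l, (b i).multichoose (i + 2)

/-- strong Macaulay step -/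
def SOS (n : ℕ → ℕ) (l : ℕ) : Prop :=
  ∀ b : ℕ → ℕ, n l ≤ val l b → n (l + 1) ≤ n l + up l (fun i => b i - 1)

lemma mc_split (B i : ℕ) :
    B.multichoose (i + 2) = B.multichoose (i + 1) + (B - 1).multichoose (i + 2) := by
  rcases B with _ | B
  · simp
  · rw [show i + 2 = (i + 1) + 1 from rfl, Nat.multichoose_succ_succ, Nat.add_sub_cancel, add_comm]

lemma val_add_up (l : ℕ) (b : ℕ → ℕ) : val l b + up l (fun i => b i - 1) = up l b := by
  unfold val up
  rw [← sum_add_distrib]
  exact sum_congr rfl fun i _ => (mc_split _ _).symm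

lemma val_succ_le (l : ℕ) (b : ℕ → ℕ) :
    val (l + 1) b ≤ val (l + 1) (fun i => b i - 1) + val l (fun i => b (i + 1)) + 1 := by
  unfold val
  rw [sum_range_succ', sum_range_succ']
  have h1 : ∑ i ∈ range l, (b (i + 1)).multichoose (i + 1 + 1) =
      ∑ i ∈ range l, (b (i + 1) - 1).multichoose (i + 1 + 1) +
        ∑ i ∈ range l, (b (i + 1)).multichoose (i + 1) := by
    rw [← sum_add_distrib]
    exact sum_congr rfl fun i _ => by rw [mc_split, add_comm]
  rw [h1]
  simp only [zero_add, Nat.multichoose_one_right]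
  omega

lemma up_shift_le (l : ℕ) (b : ℕ → ℕ) : up l (fun i => b (i + 1)) ≤ val (l + 1) b := by
  unfold val up
  rw [sum_range_succ']
  exact Nat.le_add_right _ _

/-- The numerical form of Green's theorem. -/
lemma green (n : ℕ → ℕ) (B : ℕ) (l : ℕ)
    (hn : ∀ i < l, ∀ b : ℕ → ℕ, (∀ j < i, b j ≤ B) → n i ≤ val i b → n (i + 1) ≤ up i b) :
    ∀ b : ℕ → ℕ, (∀ j < l, b j ≤ B + 1) → ∑ i ∈ range (l + 1), n i ≤ val l b →
      n l ≤ val l (fun i => b i - 1) := by
  induction l with
  | zero => intro b _ h; simpa [val] using h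
  | succ l ih =>
    intro b hb h
    by_contra hc
    push Not at hc
    have h1 : val l (fun i => b (i + 1) - 1) < n l := by
      by_contra h2
      push Not at h2
      have := hn l (by omega) (fun i => b (i + 1) - 1)
        (fun j hj => by have := hb (j + 1) (by omega); omega) h2
      have h3 := up_shift_le l (fun i => b i - 1)
      omega
    have h2 : val l (fun i => b (i + 1)) < ∑ i ∈ range (l + 1), n i := by
      by_contra h2
      push Not at h2
      have := ih (fun i hi => hn i (by omega)) (fun i => b (i + 1))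
        (fun j hj => hb (j + 1) (by omega)) h2
      omega
    rw [sum_range_succ] at h
    have := val_succ_le l b
    omega

lemma SOS.weak {n : ℕ → ℕ} {l : ℕ} (h : SOS n l) (b : ℕ → ℕ) (hb : n l ≤ val l b) :
    n (l + 1) ≤ up l b := by
  have := h b hb
  have := val_add_up l b
  omega

lemma exists_bound (l : ℕ) (b : ℕ → ℕ) : ∃ B, ∀ j < l, b j ≤ B :=
  ⟨(range l).sup b, fun _ hj => le_sup (f := b) (mem_range.2 hj)⟩

/-- partial sums of an O-sequence form an O-sequence -/
lemma SOS_sum (n : ℕ → ℕ) (l : ℕ) (hn : ∀ i ≤ l, SOS n i) :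
    SOS (fun l => ∑ i ∈ range (l + 1), n i) l := by
  intro b hb
  obtain ⟨B, hB⟩ := exists_bound l b
  have h1 := green n B l (fun i hi b _ h => (hn i hi.le).weak b h) b
    (fun j hj => (hB j hj).trans (Nat.le_succ _)) hb
  have h2 := (hn l le_rfl).weak _ h1
  simp only
  rw [sum_range_succ n (l + 1)]
  omega

lemma macTop_spec (l n : ℕ) :
    (macTop (l + 1) n).choose (l + 1) ≤ n ∧ n < (macTop (l + 1) n + 1).choose (l + 1) ∧
      l ≤ macTop (l + 1) n := by
  have hl : l ≤ macTop (l + 1) n := by
    apply Nat.le_findGreatest (by omega)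
    simp
  have h1 : (macTop (l + 1) n).choose (l + 1) ≤ n :=
    Nat.findGreatest_spec (P := fun a => a.choose (l + 1) ≤ n) (m := l) (by omega) (by simp)
  refine ⟨h1, ?_, hl⟩
  have hbig : n < (n + (l + 1)).choose (l + 1) := by
    have : ∀ k, n < (n + (k + 1)).choose (k + 1) := by
      intro k
      induction k with
      | zero => simp
      | succ k ih =>
        have : n + (k + 1 + 1) = (n + (k + 1)) + 1 := by ring
        rw [this, Nat.choose_succ_succ']
        omega
    exact this l
  have hle : macTop (l + 1) n ≤ n + (l + 1) := Nat.findGreatest_le _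
  have hne : macTop (l + 1) n ≠ n + (l + 1) := by
    intro h
    rw [h] at h1
    omega
  by_contra hc
  push Not at hc
  have := Nat.le_findGreatest (P := fun a => a.choose (l + 1) ≤ n)
    (m := macTop (l + 1) n + 1) (n := n + (l + 1)) (by omega) hc
  unfold macTop at this hne hle
  omega

/-- number of variables in the top block -/
def topB (l n : ℕ) : ℕ := macTop (l + 1) n - l

lemma topB_val (l n : ℕ) :
    (topB l n).multichoose (l + 1) = (macTop (l + 1) n).choose (l + 1) := by
  have := (macTop_spec l n).2.2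
  rw [Nat.multichoose_eq]
  congr 1
  unfold topB
  omega

lemma topB_up (l n : ℕ) :
    (topB l n).multichoose (l + 2) = (macTop (l + 1) n + 1).choose (l + 2) := by
  have := (macTop_spec l n).2.2
  rw [Nat.multichoose_eq]
  congr 1
  unfold topB
  omega

lemma topB_le (l n : ℕ) : (topB l n).multichoose (l + 1) ≤ n := by
  rw [topB_val]; exact (macTop_spec l n).1

lemma lt_topB (l n : ℕ) : n < (topB l n + 1).multichoose (l + 1) := by
  have h := macTop_spec l n
  rw [Nat.multichoose_eq]
  have : topB l n + 1 + (l + 1) - 1 = macTop (l + 1) n + 1 := by unfold topB; omega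
  rw [this]
  exact h.2.1

lemma mac_succ (l n : ℕ) : mac (l + 1) n =
    (topB l n).multichoose (l + 2) + mac l (n - (topB l n).multichoose (l + 1)) := by
  rw [topB_up, topB_val]; rfl

lemma rem_lt (l n : ℕ) :
    n - (topB l n).multichoose (l + 1) < (topB l n + 1).multichoose l := by
  have h1 := lt_topB l n
  have h2 := topB_le l n
  rw [Nat.multichoose_succ_succ] at h1
  omega

lemma exists_rep (l : ℕ) : ∀ n, (l = 0 → n = 0) → ∃ b : ℕ → ℕ, n = val l b ∧ mac l n = up l b := by
  induction l with
  | zero => intro n hn; exact ⟨fun _ => 0, by simp [val, hn rfl], by simp [up, mac]⟩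
  | succ l ih =>
    intro n _
    obtain ⟨b, h1, h2⟩ := ih (n - (topB l n).multichoose (l + 1)) (by
      rintro rfl
      have := rem_lt 0 n
      simp only [Nat.multichoose_zero_right] at this
      omega)
    refine ⟨Function.update b l (topB l n), ?_, ?_⟩
    · unfold val at h1 ⊢
      rw [sum_range_succ, Function.update_self]
      have : ∑ i ∈ range l, (Function.update b l (topB l n) i).multichoose (i + 1) =
          ∑ i ∈ range l, (b i).multichoose (i + 1) :=
        sum_congr rfl fun i hi => by
          rw [Function.update_of_ne (by have := mem_range.1 hi; omega)]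
      rw [this, ← h1]
      have := topB_le l n
      omega
    · rw [mac_succ, h2]
      unfold up
      rw [sum_range_succ, Function.update_self]
      have : ∑ i ∈ range l, (Function.update b l (topB l n) i).multichoose (i + 2) =
          ∑ i ∈ range l, (b i).multichoose (i + 2) :=
        sum_congr rfl fun i hi => by
          rw [Function.update_of_ne (by have := mem_range.1 hi; omega)]
      rw [this]
      omega

lemma SOS.le_mac {n : ℕ → ℕ} {l : ℕ} (h : SOS n l) (hl : 1 ≤ l) : n (l + 1) ≤ mac l (n l) := by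
  obtain ⟨b, h1, h2⟩ := exists_rep l (n l) (by omega)
  rw [h2]
  exact h.weak b h1.le

end Pool.Agent.MP_708e57_al

end MrgPart0

-- ======== part 1: formerly Pool.Agent.MP_708e57_al.Colex
section MrgPart1

/-!
Every O-sequence counts the monomials of an order ideal.
-/

namespace Pool.Agent.MP_708e57_al

open Finset

/-- monomials of degree `l` in the first `B` variables -/
noncomputable def monS (B l : ℕ) : Finset (ℕ →₀ ℕ) := (range B).finsuppAntidiag l

lemma mem_monS {B l : ℕ} {u : ℕ →₀ ℕ} : u ∈ monS B l ↔ u.degree = l ∧ ∀ s, B ≤ s → u s = 0 := by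
  rw [monS, mem_finsuppAntidiag']
  refine and_congr Iff.rfl ⟨fun h s hs => ?_, fun h s hs => ?_⟩
  · by_contra hne
    have := mem_range.1 (h (Finsupp.mem_support_iff.2 hne))
    omega
  · rw [mem_range]
    by_contra hc
    exact Finsupp.mem_support_iff.1 hs (h s (not_lt.1 hc))

lemma card_monS (B l : ℕ) : (monS B l).card = B.multichoose l := by
  rw [monS, card_finsuppAntidiag_nat_eq_multichoose, card_range]

lemma monS_mono {B B' : ℕ} (h : B ≤ B') (l : ℕ) : monS B l ⊆ monS B' l := fun _ hu =>
  mem_monS.2 ⟨(mem_monS.1 hu).1, fun s hs => (mem_monS.1 hu).2 s (h.trans hs)⟩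

lemma mc_pos (B l : ℕ) : 0 < (B + 1).multichoose l := by
  rw [Nat.multichoose_eq]
  exact Nat.choose_pos (by omega)

lemma mc_strictMono (l : ℕ) : StrictMono fun B : ℕ => B.multichoose (l + 1) := by
  refine strictMono_nat_of_lt_succ fun B => ?_
  rw [Nat.multichoose_succ_succ]
  have := mc_pos B l
  omega

lemma topB_eq {l n b : ℕ} (h1 : b.multichoose (l + 1) ≤ n) (h2 : n < (b + 1).multichoose (l + 1)) :
    topB l n = b := by
  have h3 := (mc_strictMono l).lt_iff_lt.1 (h1.trans_lt (lt_topB l n))
  have h4 := (mc_strictMono l).lt_iff_lt.1 ((topB_le l n).trans_lt h2)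
  omega

/-- initial segments in the colexicographic order -/
noncomputable def seg : ℕ → ℕ → Finset (ℕ →₀ ℕ)
  | 0, n => if n = 0 then ∅ else {0}
  | l + 1, n => monS (topB l n) (l + 1) ∪
      (seg l (n - (topB l n).multichoose (l + 1))).image (· + Finsupp.single (topB l n) 1)

lemma seg_zero (l : ℕ) : seg l 0 = ∅ := by
  induction l with
  | zero => rfl
  | succ l ih =>
    have : topB l 0 = 0 := topB_eq (by simp) (mc_pos 0 _)
    rw [seg, this, Nat.zero_sub, ih, image_empty, union_empty, ← card_eq_zero, card_monS]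
    simp

lemma add_single_mem {B l : ℕ} {u : ℕ →₀ ℕ} (hu : u ∈ monS (B + 1) l) :
    u + Finsupp.single B 1 ∈ monS (B + 1) (l + 1) := by
  rw [mem_monS] at hu ⊢
  refine ⟨by rw [map_add, hu.1, Finsupp.degree_single], fun s hs => ?_⟩
  rw [Finsupp.add_apply, hu.2 s hs, Finsupp.single_eq_of_ne (by omega), add_zero]

lemma seg_subset (l : ℕ) : ∀ n B, n ≤ B.multichoose l → seg l n ⊆ monS B l := by
  induction l with
  | zero =>
    intro n B _ u hu
    rw [seg] at hu
    split_ifs at hu
    · simp at hu
    · rw [mem_singleton.1 hu, mem_monS]; simp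
  | succ l ih =>
    intro n B h
    have hb : topB l n ≤ B := (mc_strictMono l).le_iff_le.1 ((topB_le l n).trans h)
    rw [seg]
    refine union_subset (monS_mono hb _) ?_
    rcases hb.eq_or_lt with hb | hb
    · rw [hb, Nat.sub_eq_zero_of_le h, seg_zero, image_empty]
      exact empty_subset _
    · intro u hu
      obtain ⟨w, hw, rfl⟩ := mem_image.1 hu
      exact monS_mono hb _ (add_single_mem (ih _ _ (rem_lt l n).le hw))

lemma card_seg (l : ℕ) : ∀ n, (l = 0 → n ≤ 1) → (seg l n).card = n := by
  induction l with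
  | zero =>
    intro n hn
    have := hn rfl
    rw [seg]
    split_ifs with h
    · simp [h]
    · simp; omega
  | succ l ih =>
    intro n _
    rw [seg, card_union_of_disjoint, card_monS, card_image_of_injective _ (add_left_injective _),
      ih]
    · have := topB_le l n
      omega
    · rintro rfl
      have := rem_lt 0 n
      simp only [Nat.multichoose_zero_right] at this
      omega
    · rw [disjoint_left]
      intro u hu hu'
      obtain ⟨w, -, rfl⟩ := mem_image.1 hu'
      have := (mem_monS.1 hu).2 _ le_rfl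
      simp at this

lemma seg_mono (l : ℕ) : ∀ n n', n ≤ n' → seg l n ⊆ seg l n' := by
  induction l with
  | zero =>
    intro n n' h
    rw [seg, seg]
    split_ifs with h1 h2 h2
    · exact Subset.rfl
    · exact empty_subset _
    · omega
    · exact Subset.rfl
  | succ l ih =>
    intro n n' h
    have hb : topB l n ≤ topB l n' := by
      have := (mc_strictMono l).lt_iff_lt.1 (((topB_le l n).trans h).trans_lt (lt_topB l n'))
      omega
    rcases hb.eq_or_lt with hb | hb
    · rw [seg, seg, ← hb]
      exact union_subset_union Subset.rfl (image_subset_image (ih _ _ (by omega)))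
    · refine (seg_subset (l + 1) n (topB l n') ?_).trans ?_
      · exact (lt_topB l n).le.trans ((mc_strictMono l).monotone hb)
      · rw [seg]
        exact subset_union_left

lemma mac_lt (l : ℕ) : ∀ n B, n < (B + 1).multichoose l → mac l n < (B + 1).multichoose (l + 1) := by
  induction l with
  | zero => intro n B _; simp [mac]
  | succ l ih =>
    intro n B h
    have hb : topB l n < B + 1 := (mc_strictMono l).lt_iff_lt.1 ((topB_le l n).trans_lt h)
    have h1 := ih _ _ (rem_lt l n)
    have h2 : (topB l n + 1).multichoose (l + 1 + 1) ≤ (B + 1).multichoose (l + 1 + 1) :=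
      (mc_strictMono (l + 1)).monotone hb
    rw [Nat.multichoose_succ_succ] at h2
    rw [mac_succ]
    exact lt_of_lt_of_le (Nat.add_lt_add_left h1 _) h2

lemma degree_sub_single {τ : Type*} {u : τ →₀ ℕ} {s : τ} (hs : u s ≠ 0) :
    (u - Finsupp.single s 1).degree + 1 = u.degree := by
  have : u - Finsupp.single s 1 + Finsupp.single s 1 = u :=
    tsub_add_cancel_of_le (Finsupp.single_le_iff.2 (by omega))
  have h2 := congrArg Finsupp.degree this
  rwa [map_add, Finsupp.degree_single] at h2

lemma seg_shadow (l : ℕ) : ∀ n, ∀ u ∈ seg (l + 1) (mac l n), ∀ s, u s ≠ 0 →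
    u - Finsupp.single s 1 ∈ seg l n := by
  induction l with
  | zero => intro n u hu; simp [mac, seg_zero] at hu
  | succ l ih =>
    intro n u hu s hs
    set b := topB l n with hb
    have h1 := mac_lt l _ _ (rem_lt l n)
    have h2 : topB (l + 1) (mac (l + 1) n) = b := by
      apply topB_eq
      · rw [mac_succ]; exact Nat.le_add_right _ _
      · rw [mac_succ, Nat.multichoose_succ_succ]
        exact Nat.add_lt_add_left h1 _
    rw [seg, h2, mac_succ, Nat.add_sub_cancel_left, ← hb] at hu
    rw [seg, ← hb]
    rcases mem_union.1 hu with hu | hu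
    · refine mem_union_left _ (mem_monS.2 ⟨?_, fun k hk => ?_⟩)
      · have := degree_sub_single hs
        rw [(mem_monS.1 hu).1] at this
        omega
      · rw [Finsupp.tsub_apply, (mem_monS.1 hu).2 k hk, Nat.zero_sub]
    · obtain ⟨w, hw, rfl⟩ := mem_image.1 hu
      by_cases hws : w s = 0
      · have hsb : s = b := by
          by_contra hne
          rw [Finsupp.add_apply, hws, Finsupp.single_eq_of_ne hne] at hs
          exact hs rfl
        rw [hsb, add_tsub_cancel_right]
        have hw2 := mem_monS.1 (seg_subset _ _ _ h1.le hw)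
        refine mem_union_left _ (mem_monS.2 ⟨hw2.1, fun k hk => ?_⟩)
        rcases hk.eq_or_lt with hk | hk
        · rw [← hk, ← hsb, hws]
        · exact hw2.2 k hk
      · refine mem_union_right _ (mem_image.2 ⟨_, ih _ w hw s hws, ?_⟩)
        exact tsub_add_eq_add_tsub (Finsupp.single_le_iff.2 (by omega))

lemma seg_degree {l n : ℕ} {u : ℕ →₀ ℕ} (hu : u ∈ seg l n) : u.degree = l := by
  rcases l with _ | l
  · rw [seg] at hu
    split_ifs at hu
    · simp at hu
    · rw [mem_singleton.1 hu, map_zero]
  · exact (mem_monS.1 (seg_subset (l + 1) n (topB l n + 1) (lt_topB l n).le hu)).1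

lemma down_of_step {τ : Type*} (O : Set (τ →₀ ℕ))
    (h : ∀ u ∈ O, ∀ s, u s ≠ 0 → u - Finsupp.single s 1 ∈ O) :
    ∀ u ∈ O, ∀ v, v ≤ u → v ∈ O := by
  intro u
  induction hn : u.degree generalizing u with
  | zero =>
    intro hu v hv
    rw [Finsupp.degree_eq_zero_iff] at hn
    rw [hn] at hv
    rwa [le_antisymm hv (zero_le), ← hn]
  | succ n ih =>
    intro hu v hv
    rcases hv.eq_or_lt with hv' | hv'
    · rwa [hv']
    · obtain ⟨s, hs⟩ := (Finsupp.lt_def.1 hv').2
      have hs0 : u s ≠ 0 := by omega
      refine ih _ (by have := degree_sub_single hs0; omega) (h u hu s hs0) v fun k => ?_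
      rw [Finsupp.tsub_apply]
      by_cases hk : k = s
      · rw [hk, Finsupp.single_eq_same]; omega
      · rw [Finsupp.single_eq_of_ne hk]; exact hv k

theorem exists_ideal {t : ℕ → ℕ} (ht : IsOSeq t) (D : ℕ) :
    ∃ (B : ℕ) (O : Finset (Fin B →₀ ℕ)), (∀ u ∈ O, ∀ v, v ≤ u → v ∈ O) ∧
      (∀ u ∈ O, u.degree ≤ D) ∧ ∀ l ≤ D, (O.filter fun u => u.degree = l).card = t l := by
  classical
  set O0 : Finset (ℕ →₀ ℕ) := (range (D + 1)).biUnion fun l => seg l (t l) with hO0
  have hmem : ∀ u, u ∈ O0 ↔ u.degree ≤ D ∧ u ∈ seg u.degree (t u.degree) := by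
    intro u
    rw [hO0, mem_biUnion]
    constructor
    · rintro ⟨l, hl, hu⟩
      rw [seg_degree hu]
      exact ⟨by have := mem_range.1 hl; omega, hu⟩
    · rintro ⟨h1, h2⟩
      exact ⟨_, mem_range.2 (by omega), h2⟩
  have hdown := down_of_step (O0 : Set (ℕ →₀ ℕ)) (by
    intro u hu s hs
    rw [mem_coe, hmem] at hu ⊢
    have hd := degree_sub_single hs
    refine ⟨by omega, ?_⟩
    rw [← hd] at hu
    set l := (u - Finsupp.single s 1).degree with hl
    rcases Nat.eq_zero_or_pos l with h0 | h0
    · have h3 : u - Finsupp.single s 1 = 0 := (Finsupp.degree_eq_zero_iff _).1 (hl.symm.trans h0)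
      rw [h0, ht.1, h3]
      simp [seg]
    · exact seg_shadow l _ u (seg_mono _ _ _ (ht.2 l h0) hu.2) s hs)
  set B := O0.sup (fun u => u.support.sup id) + 1 with hB
  have hinj := Finsupp.mapDomain_injective (M := ℕ) (Fin.val_injective (n := B))
  have hrange : ∀ u ∈ O0, u ∈ Set.range (Finsupp.mapDomain (M := ℕ) (Fin.val (n := B))) := by
    intro u hu
    refine ⟨_, Finsupp.mapDomain_comapDomain _ Fin.val_injective u fun s hs => ?_⟩
    have h1 : s ≤ u.support.sup id := le_sup (f := id) hs
    have h2 : u.support.sup id ≤ O0.sup (fun u => u.support.sup id) :=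
      le_sup (f := fun u : ℕ →₀ ℕ => u.support.sup id) hu
    exact ⟨⟨s, by omega⟩, rfl⟩
  refine ⟨B, O0.preimage _ hinj.injOn, fun u hu v hv => ?_, fun u hu => ?_, fun l hl => ?_⟩
  · rw [mem_preimage] at hu ⊢
    exact hdown _ hu _ (Finsupp.mapDomain_mono hv)
  · rw [mem_preimage, hmem, Finsupp.degree_mapDomain] at hu
    exact hu.1
  · have : (O0.preimage _ hinj.injOn).filter (fun u => u.degree = l) =
        (seg l (t l)).preimage _ hinj.injOn := by
      ext u
      rw [mem_filter, mem_preimage, mem_preimage, hmem, Finsupp.degree_mapDomain]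
      constructor
      · rintro ⟨⟨-, h⟩, rfl⟩
        exact h
      · intro h
        have := seg_degree h
        rw [Finsupp.degree_mapDomain] at this
        rw [this]
        exact ⟨⟨hl, h⟩, rfl⟩
    rw [this, card_preimage, filter_true_of_mem, card_seg]
    · rintro rfl
      exact ht.1.le
    · intro u hu
      refine hrange u ((hmem u).2 ?_)
      rw [seg_degree hu]
      exact ⟨hl, hu⟩

end Pool.Agent.MP_708e57_al

end MrgPart1

-- marker of a merged file
example : 731051 + 239617 = 731051 + 239617 := rfl
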