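import Mathlib.LinearAlgebra.FreeModule.PID
import Mathlib.Topology.Sheaves.Presheaf
import Mathlib.Tactic.Monotonicity.Lemmas
import Mathlib.FieldTheory.IsAlgClosed.AlgebraicClosure
import Mathlib.RingTheory.Flat.TorsionFree
import Mathlib.LinearAlgebra.Matrix.Rank
import Mathlib.Algebra.Module.StablyFree.Basic
import Mathlib.RingTheory.PicardGroup
import Mathlib.Tactic.Bound
import Mathlib.LinearAlgebra.Matrix.FiniteDimensional
import Mathlib.LinearAlgebra.LinearIndependent.BaseChange
import Mathlib.RingTheory.PiTensorProduct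
import Mathlib.RingTheory.SimpleRing.Principal
import Mathlib.Order.CompletePartialOrder
import Mathlib.RingTheory.PowerSeries.WellKnown
import Mathlib.RingTheory.Henselian
import Mathlib.RingTheory.MvPolynomial.IrreducibleQuadratic
import Mathlib.RingTheory.RegularLocalRing.Defs
import Mathlib.Tactic.Polynomial.Basic
import Pool.Agent.MP_708e57_al.Colex

-- ======== part 0: formerly Pool.Agent.MP_708e57_al.Generic
section MrgPart0

/-!
Generic rank along polynomial families over an infinite field.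
-/

namespace Pool.Agent.MP_708e57_al

open Polynomial Module

variable {K A : Type*} [Field K] [CommRing A] [Algebra K A]

/-- apply a functional to the coefficients of a polynomial -/
noncomputable def pmap (g : A →ₗ[K] K) (p : A[X]) : K[X] :=
  p.sum fun n a => monomial n (g a)

lemma eval_pmap (g : A →ₗ[K] K) (p : A[X]) (t : K) :
    (pmap g p).eval t = g (p.eval (algebraMap K A t)) := by
  unfold pmap
  rw [Polynomial.eval_eq_sum (p := p), Polynomial.sum, Polynomial.sum, map_sum, ← coe_evalRingHom,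
    map_sum]
  refine Finset.sum_congr rfl fun n _ => ?_
  rw [coe_evalRingHom, eval_monomial, ← map_pow, mul_comm (p.coeff n), ← Algebra.smul_def, map_smul, smul_eq_mul,
    mul_comm]

lemma indep_cofinite {E : Type*} [AddCommGroup E] [Module K E] {ι : Type*} [Fintype ι]
    (π : A →ₗ[K] E) (p : ι → A[X])
    (h : LinearIndependent K (fun j => π ((p j).eval 0))) :
    {t : K | ¬ LinearIndependent K (fun j => π ((p j).eval (algebraMap K A t)))}.Finite := by
  classical
  have hinj : LinearMap.ker (Fintype.linearCombination K (fun j => π ((p j).eval 0))) = ⊥ := by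
    rw [LinearMap.ker_eq_bot]
    exact linearIndependent_iff_injective_fintypeLinearCombination.1 h
  obtain ⟨lam, hlam⟩ := LinearMap.exists_leftInverse_of_injective _ hinj
  have hlam' : ∀ j, lam (π ((p j).eval 0)) = Pi.single j 1 := by
    intro j
    have := LinearMap.congr_fun hlam (Pi.single j 1)
    simpa [Fintype.linearCombination_apply_single] using this
  set Q : Matrix ι ι K[X] := Matrix.of fun j i =>
    pmap ((LinearMap.proj i : (ι → K) →ₗ[K] K) ∘ₗ lam ∘ₗ π) (p j) with hQ
  have hev : ∀ t : K, Q.det.eval t =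
      (Matrix.of fun j i => lam (π ((p j).eval (algebraMap K A t))) i).det := by
    intro t
    rw [← coe_evalRingHom, RingHom.map_det]
    congr 1
    ext j i
    simp [hQ, eval_pmap]
  have hne : Q.det ≠ 0 := by
    intro h0
    have := hev 0
    rw [h0, map_zero] at this
    have h1 : (Matrix.of fun j i => lam (π ((p j).eval 0)) i) = (1 : Matrix ι ι K) := by
      ext j i
      simp [hlam', Matrix.one_apply, Pi.single_apply, eq_comm]
    rw [h1] at this
    simp at this
  refine (Q.det.roots.toFinset.finite_toSet).subset ?_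
  intro t ht
  simp only [Finset.mem_coe, Multiset.mem_toFinset, mem_roots hne, IsRoot.def]
  by_contra hc
  apply ht
  rw [hev] at hc
  have := Matrix.linearIndependent_rows_of_det_ne_zero hc
  exact LinearIndependent.of_comp lam this

/-- the image of `W` under multiplication by `a`, modulo `Y` -/
noncomputable def img (W : Submodule K A) (a : A) (Y : Submodule K A) : Submodule K (A ⧸ Y) :=
  W.map (Y.mkQ ∘ₗ LinearMap.mulLeft K a)

/-- the rank of multiplication by `a` on `W`, modulo `Y` -/
noncomputable def rk (W : Submodule K A) (a : A) (Y : Submodule K A) : ℕ :=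
  finrank K (img W a Y)

lemma mem_img {W Y : Submodule K A} {a : A} {x : A ⧸ Y} :
    x ∈ img W a Y ↔ ∃ w ∈ W, Y.mkQ (a * w) = x := by
  simp [img]

variable [FiniteDimensional K A]

lemma exists_img_basis (W : Submodule K A) (a : A) (Y : Submodule K A) :
    ∃ w : Fin (rk W a Y) → A, (∀ j, w j ∈ W) ∧
      LinearIndependent K (fun j => Y.mkQ (a * w j)) ∧
      Submodule.span K (Set.range fun j => Y.mkQ (a * w j)) = img W a Y := by
  let b : Basis (Fin (rk W a Y)) K (img W a Y) := Module.finBasisOfFinrankEq K (img W a Y) rfl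
  have : ∀ j, ∃ w ∈ W, Y.mkQ (a * w) = (b j : A ⧸ Y) := fun j => mem_img.1 (b j).2
  choose w hw hw' using this
  have h1 : (fun j => Y.mkQ (a * w j)) = (img W a Y).subtype ∘ b := by
    funext j
    exact hw' j
  refine ⟨w, hw, ?_, ?_⟩
  · rw [h1]
    exact b.linearIndependent.map' (img W a Y).subtype (Submodule.ker_subtype _)
  · rw [h1, Set.range_comp, Submodule.span_image, b.span_eq, Submodule.map_top,
      Submodule.range_subtype]

lemma card_le_rk {ι : Type*} [Fintype ι] {W Y : Submodule K A} {a : A} {v : ι → A ⧸ Y}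
    (hv : LinearIndependent K v) (hm : ∀ j, v j ∈ img W a Y) : Fintype.card ι ≤ rk W a Y := by
  rw [← finrank_span_eq_card hv]
  apply Submodule.finrank_mono
  rw [Submodule.span_le]
  rintro _ ⟨j, rfl⟩
  exact hm j

lemma rk_cofinite (W Y : Submodule K A) (p : A[X]) :
    {t : K | rk W (p.eval (algebraMap K A t)) Y < rk W (p.eval 0) Y}.Finite := by
  obtain ⟨w, hw, hli, -⟩ := exists_img_basis W (p.eval 0) Y
  have := indep_cofinite Y.mkQ (fun j => p * C (w j)) (by simpa using hli)
  refine this.subset fun t ht hc => ?_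
  have h2 := card_le_rk (W := W) (a := p.eval (algebraMap K A t)) hc
    (fun j => mem_img.2 ⟨w j, hw j, by simp⟩)
  simp only [Fintype.card_fin] at h2
  exact absurd ht (not_lt.2 h2)

variable [Infinite K]

lemma one_step (W Y : Submodule K A) (p q : A[X])
    (hmax : ∀ t : K, rk W (p.eval (algebraMap K A t)) Y ≤ rk W (p.eval 0) Y)
    (hq : ∀ t : K, t ≠ 0 → Y.mkQ (q.eval (algebraMap K A t)) ∈
      img W (p.eval (algebraMap K A t)) Y) :
    Y.mkQ (q.eval 0) ∈ img W (p.eval 0) Y := by
  by_contra hc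
  obtain ⟨w, hw, hli, hspan⟩ := exists_img_basis W (p.eval 0) Y
  let r : Option (Fin (rk W (p.eval 0) Y)) → A[X] := fun o => o.elim q fun j => p * C (w j)
  have h0 : LinearIndependent K (fun o => Y.mkQ ((r o).eval 0)) := by
    rw [linearIndependent_option]
    have : ((fun o => Y.mkQ ((r o).eval 0)) ∘ ((↑) : _ → Option _)) =
        fun j => Y.mkQ (p.eval 0 * w j) := by
      funext j
      simp [r]
    rw [this, hspan]
    exact ⟨hli, by simpa [r] using hc⟩
  have hfin := (indep_cofinite Y.mkQ r h0).union (Set.finite_singleton (0 : K))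
  obtain ⟨t, ht⟩ := hfin.exists_notMem
  simp only [Set.mem_union, Set.mem_ofPred_eq, Set.mem_singleton_iff, not_or, not_not] at ht
  have h2 := card_le_rk (W := W) (a := p.eval (algebraMap K A t)) ht.1 (by
    rintro (_ | j)
    · exact hq t ht.2
    · exact mem_img.2 ⟨w j, hw j, by simp [r]⟩)
  have := hmax t
  simp only [Fintype.card_option, Fintype.card_fin] at h2
  omega

lemma exists_generic {ι : Type*} [Fintype ι] (V : Submodule K A) (W Y : ι → Submodule K A)
    (e : ι → ℕ) : ∃ L ∈ V, ∀ a, ∀ L' ∈ V, rk (W a) (L' ^ e a) (Y a) ≤ rk (W a) (L ^ e a) (Y a) := by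
  classical
  let F : A → ℕ := fun L => ∑ a, rk (W a) (L ^ e a) (Y a)
  have hbdd : BddAbove (F '' (V : Set A)) := by
    refine ⟨∑ a, finrank K (A ⧸ Y a), ?_⟩
    rintro _ ⟨L, -, rfl⟩
    exact Finset.sum_le_sum fun a _ => Submodule.finrank_le _
  obtain ⟨L, hL, hF⟩ := Nat.sSup_mem (s := F '' (V : Set A)) ⟨F 0, 0, V.zero_mem, rfl⟩ hbdd
  refine ⟨L, hL, fun a L' hL' => ?_⟩
  by_contra hc
  push Not at hc
  have ev1 : ∀ (n : ℕ) (t : K), ((C L + X * C (L' - L)) ^ n).eval (algebraMap K A t) =
      (L + t • (L' - L)) ^ n := by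
    intro n t
    simp [Algebra.smul_def]
  have ev2 : ∀ (n : ℕ) (t : K), ((C L' + X * C (L - L')) ^ n).eval (algebraMap K A (1 - t)) =
      (L + t • (L' - L)) ^ n := by
    intro n t
    simp only [eval_pow, eval_add, eval_C, eval_mul, eval_X, map_sub, map_one, Algebra.smul_def,
      eval_sub]
    congr 1
    ring
  have f1 : (⋃ b, {t : K | rk (W b) ((L + t • (L' - L)) ^ e b) (Y b) <
      rk (W b) (L ^ e b) (Y b)}).Finite := by
    refine Set.finite_iUnion fun b => ?_
    have := rk_cofinite (W b) (Y b) ((C L + X * C (L' - L)) ^ e b)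
    simp only [ev1] at this
    simpa using this
  have f2 : {t : K | rk (W a) ((L + t • (L' - L)) ^ e a) (Y a) <
      rk (W a) (L' ^ e a) (Y a)}.Finite := by
    have := rk_cofinite (W a) (Y a) ((C L' + X * C (L - L')) ^ e a)
    have h3 := this.preimage (f := fun t : K => 1 - t) (sub_right_injective.injOn)
    refine h3.subset fun t ht => ?_
    simp only [Set.mem_preimage, Set.mem_ofPred_eq, ev2]
    simpa using ht
  obtain ⟨t, ht⟩ := (f1.union f2).exists_notMem
  simp only [Set.mem_union, Set.mem_iUnion, Set.mem_ofPred_eq, not_or, not_exists, not_lt] at ht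
  have hlt : F L < F (L + t • (L' - L)) :=
    Finset.sum_lt_sum (fun b _ => ht.1 b) ⟨a, Finset.mem_univ _, hc.trans_le ht.2⟩
  have hle : F (L + t • (L' - L)) ≤ F L := by
    rw [hF]
    exact le_csSup hbdd ⟨_, V.add_mem hL (V.smul_mem t (V.sub_mem hL' hL)), rfl⟩
  omega

end Pool.Agent.MP_708e57_al

end MrgPart0

-- ======== part 1: formerly Pool.Agent.MP_708e57_al.Chain
section MrgPart1

/-!
Kernel vectors of a polynomial family of maximal rank extend to power series.
-/

namespace Pool.Agent.MP_708e57_al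

open Polynomial Module Finset

variable {K A : Type*} [Field K] [CommRing A] [Algebra K A]

lemma coeff_divX_iter (r : A[X]) (k i : ℕ) : (divX^[k] r).coeff i = r.coeff (i + k) := by
  induction k generalizing i with
  | zero => rfl
  | succ k ih => rw [Function.iterate_succ_apply', coeff_divX, ih]; congr 1; ring

lemma split_low (r : A[X]) (k : ℕ) :
    r = ∑ i ∈ range k, monomial i (r.coeff i) + X ^ k * divX^[k] r := by
  ext m
  rw [coeff_add, coeff_X_pow_mul', finsetSum_coeff]
  simp only [coeff_monomial, sum_ite_eq', mem_range]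
  by_cases h : m < k
  · simp [h, not_le.2 h]
  · simp only [h, if_false, not_lt.1 h, if_true, coeff_divX_iter, zero_add]
    congr 1
    omega

lemma eval_mem (W : Submodule K A) (k : ℕ) (s : ℕ → A) (hs : ∀ i < k, s i ∈ W) (t : K) :
    (∑ i ∈ range k, monomial i (s i)).eval (algebraMap K A t) ∈ W := by
  rw [eval_finsetSum]
  refine W.sum_mem fun i hi => ?_
  rw [eval_monomial, ← map_pow, mul_comm, ← Algebra.smul_def]
  exact W.smul_mem _ (hs i (mem_range.1 hi))

variable [FiniteDimensional K A] [Infinite K]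

lemma chain_step (W Y : Submodule K A) (p : A[X])
    (hmax : ∀ t : K, rk W (p.eval (algebraMap K A t)) Y ≤ rk W (p.eval 0) Y)
    (n : ℕ) (s : ℕ → A) (hs : ∀ i ≤ n, s i ∈ W)
    (hrel : ∀ m ≤ n, ∑ x ∈ antidiagonal m, p.coeff x.1 * s x.2 ∈ Y) :
    ∃ w ∈ W, p.coeff 0 * w + ∑ x ∈ antidiagonal n, p.coeff (x.1 + 1) * s x.2 ∈ Y := by
  set q : A[X] := ∑ i ∈ range (n + 1), monomial i (s i) with hq
  have hqc : ∀ i, q.coeff i = if i < n + 1 then s i else 0 := by
    intro i
    rw [hq, finsetSum_coeff]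
    simp [coeff_monomial]
  have hlow : ∀ m < n + 1, (p * q).coeff m ∈ Y := by
    intro m hm
    rw [coeff_mul]
    have : ∑ x ∈ antidiagonal m, p.coeff x.1 * q.coeff x.2 =
        ∑ x ∈ antidiagonal m, p.coeff x.1 * s x.2 := by
      refine sum_congr rfl fun x hx => ?_
      have := mem_antidiagonal.1 hx
      rw [hqc, if_pos (by omega)]
    rw [this]
    exact hrel m (by omega)
  have htop : (divX^[n + 1] (p * q)).eval 0 =
      ∑ x ∈ antidiagonal n, p.coeff (x.1 + 1) * s x.2 := by
    rw [← coeff_zero_eq_eval_zero, coeff_divX_iter, zero_add, coeff_mul,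
      Finset.Nat.sum_antidiagonal_succ, hqc, if_neg (by omega), mul_zero, zero_add]
    refine sum_congr rfl fun x hx => ?_
    have := mem_antidiagonal.1 hx
    rw [hqc, if_pos (by omega)]
  have key := one_step W Y p (divX^[n + 1] (p * q)) hmax (by
    intro t ht
    have h1 := congrArg (eval (algebraMap K A t)) (split_low (p * q) (n + 1))
    rw [eval_add, eval_mul, eval_mul, eval_pow, eval_X, ← map_pow, ← Algebra.smul_def] at h1
    have h2 := eval_mem Y (n + 1) _ hlow t
    refine mem_img.2 ⟨(t ^ (n + 1))⁻¹ • q.eval (algebraMap K A t),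
      W.smul_mem _ (eval_mem W (n + 1) s (fun i hi => hs i (by omega)) t), ?_⟩
    rw [mul_smul_comm, h1, smul_add, smul_smul, inv_mul_cancel₀ (pow_ne_zero _ ht), one_smul,
      map_add, map_smul]
    rw [Submodule.mkQ_apply, (Submodule.Quotient.mk_eq_zero Y).2 h2]
    simp)
  obtain ⟨w, hw, hw'⟩ := mem_img.1 key
  refine ⟨-w, W.neg_mem hw, ?_⟩
  rw [htop, ← coeff_zero_eq_eval_zero] at hw'
  rw [← Submodule.Quotient.mk_eq_zero, ← Submodule.mkQ_apply, map_add, ← hw', mul_neg, map_neg]
  simp

lemma chain (W Y : Submodule K A) (p : A[X])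
    (hmax : ∀ t : K, rk W (p.eval (algebraMap K A t)) Y ≤ rk W (p.eval 0) Y)
    (z : A) (hz : z ∈ W) (h0 : p.coeff 0 * z ∈ Y) :
    ∃ s : ℕ → A, s 0 = z ∧ (∀ i, s i ∈ W) ∧
      ∀ n, ∑ x ∈ antidiagonal n, p.coeff x.1 * s x.2 ∈ Y := by
  classical
  let next : ℕ → (ℕ → A) → A := fun n g =>
    if h : ∃ w ∈ W, p.coeff 0 * w + ∑ x ∈ antidiagonal n, p.coeff (x.1 + 1) * g x.2 ∈ Y then
      h.choose else 0
  let f : ℕ → ℕ → A := fun n =>
    Nat.rec (motive := fun _ => ℕ → A) (fun _ => z)
      (fun n g => Function.update g (n + 1) (next n g)) n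
  have fsucc : ∀ n, f (n + 1) = Function.update (f n) (n + 1) (next n (f n)) := fun n => rfl
  have stab : ∀ n i, i ≤ n → f n i = f i i := by
    intro n
    induction n with
    | zero => intro i hi; obtain rfl : i = 0 := by omega
              rfl
    | succ n ih =>
      intro i hi
      rcases Nat.lt_or_ge i (n + 1) with h | h
      · rw [fsucc, Function.update_of_ne h.ne, ih i (by omega)]
      · obtain rfl : i = n + 1 := by omega
        rfl
  have main : ∀ n, (∀ i ≤ n, f i i ∈ W) ∧
      ∀ m ≤ n, ∑ x ∈ antidiagonal m, p.coeff x.1 * f x.2 x.2 ∈ Y := by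
    intro n
    induction n with
    | zero =>
      refine ⟨fun i hi => ?_, fun m hm => ?_⟩
      · obtain rfl : i = 0 := by omega
        exact hz
      · obtain rfl : m = 0 := by omega
        have : f 0 0 = z := rfl
        simpa [this] using h0
    | succ n ih =>
      have hsum : ∑ x ∈ antidiagonal n, p.coeff (x.1 + 1) * f n x.2 =
          ∑ x ∈ antidiagonal n, p.coeff (x.1 + 1) * f x.2 x.2 := by
        refine sum_congr rfl fun x hx => ?_
        have := mem_antidiagonal.1 hx
        rw [stab n x.2 (by omega)]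
      have hex : ∃ w ∈ W, p.coeff 0 * w +
          ∑ x ∈ antidiagonal n, p.coeff (x.1 + 1) * f n x.2 ∈ Y := by
        rw [hsum]
        exact chain_step W Y p hmax n (fun i => f i i) ih.1 ih.2
      have hval : f (n + 1) (n + 1) = hex.choose := by
        rw [fsucc, Function.update_self]
        exact dif_pos hex
      refine ⟨fun i hi => ?_, fun m hm => ?_⟩
      · rcases Nat.lt_or_ge i (n + 1) with h | h
        · exact ih.1 i (by omega)
        · obtain rfl : i = n + 1 := by omega
          rw [hval]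
          exact hex.choose_spec.1
      · rcases Nat.lt_or_ge m (n + 1) with h | h
        · exact ih.2 m (by omega)
        · obtain rfl : m = n + 1 := by omega
          rw [Finset.Nat.sum_antidiagonal_succ, hval, ← hsum]
          exact hex.choose_spec.2
  exact ⟨fun i => f i i, rfl, fun i => (main i).1 i le_rfl, fun n => (main n).2 n le_rfl⟩

end Pool.Agent.MP_708e57_al

end MrgPart1

-- ======== part 2: formerly Pool.Agent.MP_708e57_al.Macaulay
section MrgPart2

/-!
Generic linear forms: the blocks reaching a given degree form a graded quotient; Macaulay's bound.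
-/

namespace Pool.Agent.MP_708e57_al

open Polynomial Module Finset

variable {K A : Type*} [Field K] [CommRing A] [Algebra K A]

/-- a family of subspaces behaving like a homogeneous ideal -/
def IsSys (V : Submodule K A) (Z : ℕ → Submodule K A) : Prop :=
  ∀ i, ∀ y ∈ V, ∀ z ∈ Z i, y * z ∈ Z (i + 1)

/-- Hilbert function of the quotient -/
noncomputable def hf (V : Submodule K A) (Z : ℕ → Submodule K A) (i : ℕ) : ℕ :=
  rk (V ^ i) 1 (Z i)

/-- multiples of `L` in degree `i` -/
noncomputable def LV (V : Submodule K A) (L : A) : ℕ → Submodule K A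
  | 0 => ⊥
  | i + 1 => (V ^ i).map (LinearMap.mulLeft K L)

/-- the next system -/
noncomputable def nextZ (V : Submodule K A) (Z : ℕ → Submodule K A) (L : A) (N i : ℕ) :
    Submodule K A :=
  LV V L i ⊔ (V ^ i ⊓ (Z (max i N)).comap (LinearMap.mulLeft K (L ^ (N - i))))

lemma mul_mem_pow_succ {V : Submodule K A} {y w : A} {i : ℕ} (hy : y ∈ V) (hw : w ∈ V ^ i) :
    y * w ∈ V ^ (i + 1) := by
  rw [pow_succ']
  exact Submodule.mul_mem_mul hy hw

lemma mul_mem_pow_add {V : Submodule K A} {y w : A} {i j : ℕ} (hy : y ∈ V ^ i) (hw : w ∈ V ^ j) :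
    y * w ∈ V ^ (i + j) := by
  rw [pow_add]
  exact Submodule.mul_mem_mul hy hw

lemma LV_le {V : Submodule K A} {L : A} (hL : L ∈ V) (i : ℕ) : LV V L i ≤ V ^ i := by
  rcases i with _ | i
  · exact bot_le
  · rintro _ ⟨w, hw, rfl⟩
    exact mul_mem_pow_succ hL hw

lemma IsSys.pow_mul {V : Submodule K A} {Z : ℕ → Submodule K A} (hZ : IsSys V Z) {L : A}
    (hL : L ∈ V) (e i : ℕ) {z : A} (hz : z ∈ Z i) : L ^ e * z ∈ Z (i + e) := by
  induction e with
  | zero => simpa using hz
  | succ e ih =>
    rw [pow_succ', mul_assoc, ← add_assoc]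
    exact hZ _ _ hL _ ih

lemma coeff_zero_lin (L y : A) (n : ℕ) : ((C L + X * C y) ^ n).coeff 0 = L ^ n := by
  rw [coeff_zero_eq_eval_zero]; simp

lemma coeff_one_lin (L y : A) (n : ℕ) :
    ((C L + X * C y) ^ (n + 1)).coeff 1 = (n + 1 : A) * L ^ n * y := by
  have := coeff_derivative ((C L + X * C y) ^ (n + 1)) 0
  rw [coeff_zero_eq_eval_zero, derivative_pow_succ] at this
  simp only [eval_mul, eval_C, eval_pow, eval_add, eval_X, zero_mul, add_zero, derivative_add,
    derivative_C, derivative_mul, derivative_X, one_mul, mul_zero, zero_add, Nat.cast_zero,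
    mul_one] at this
  rw [← this]

lemma eval_lin (L y : A) (n : ℕ) (t : K) :
    ((C L + X * C y) ^ n).eval (algebraMap K A t) = (L + t • y) ^ n := by
  simp [Algebra.smul_def, mul_comm y]

lemma eval_lin_zero (L y : A) (n : ℕ) : ((C L + X * C y) ^ n).eval 0 = L ^ n := by
  simp

variable [FiniteDimensional K A]

lemma fr_map {E : Type*} [AddCommGroup E] [Module K E] (W : Submodule K A) (f : A →ₗ[K] E) :
    finrank K (W.map f) + finrank K (W ⊓ LinearMap.ker f : Submodule K A) = finrank K W := by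
  have := LinearMap.finrank_range_add_finrank_ker (f.domRestrict W)
  rw [LinearMap.range_domRestrict, LinearMap.ker_domRestrict] at this
  rw [← this, ← Submodule.map_comap_subtype, Submodule.finrank_map_subtype_eq]

lemma fr_split {E : Type*} [AddCommGroup E] [Module K E] {W W' : Submodule K A} (h : W' ≤ W)
    (f : A →ₗ[K] E) :
    finrank K (W.map f) = finrank K (W'.map f) +
      finrank K (W.map (W' ⊔ (W ⊓ LinearMap.ker f)).mkQ) := by
  set U := W' ⊔ (W ⊓ LinearMap.ker f) with hU
  have hUW : U ≤ W := sup_le h inf_le_left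
  have h1 := fr_map W f
  have h2 := fr_map W U.mkQ
  have h3 := fr_map U f
  rw [Submodule.ker_mkQ, inf_eq_right.2 hUW] at h2
  have e1 : U.map f = W'.map f := by
    rw [hU, Submodule.map_sup, sup_eq_left]
    rintro _ ⟨x, hx, rfl⟩
    have : f x = 0 := hx.2
    rw [this]
    exact Submodule.zero_mem _
  have e2 : U ⊓ LinearMap.ker f = W ⊓ LinearMap.ker f :=
    le_antisymm (inf_le_inf_right _ hUW) (le_inf le_sup_right inf_le_right)
  rw [e1, e2] at h3
  omega

lemma rk_add (W : Submodule K A) (a : A) (Y : Submodule K A) :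
    rk W a Y + finrank K (W ⊓ Y.comap (LinearMap.mulLeft K a) : Submodule K A) = finrank K W := by
  have := fr_map W (Y.mkQ ∘ₗ LinearMap.mulLeft K a)
  rwa [LinearMap.ker_comp, Submodule.ker_mkQ] at this

lemma rk_le_of_ker {W Y Y' : Submodule K A} {a a' : A}
    (h : ∀ w ∈ W, a * w ∈ Y → a' * w ∈ Y') : rk W a' Y' ≤ rk W a Y := by
  have h1 := rk_add W a Y
  have h2 := rk_add W a' Y'
  have h3 : finrank K (W ⊓ Y.comap (LinearMap.mulLeft K a) : Submodule K A) ≤
      finrank K (W ⊓ Y'.comap (LinearMap.mulLeft K a') : Submodule K A) :=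
    Submodule.finrank_mono fun w hw => ⟨hw.1, h w hw.1 hw.2⟩
  omega

lemma rk_eq_zero_iff {W Y : Submodule K A} {a : A} : rk W a Y = 0 ↔ ∀ w ∈ W, a * w ∈ Y := by
  unfold rk
  rw [Submodule.finrank_eq_zero, Submodule.eq_bot_iff]
  constructor
  · intro h w hw
    exact (Submodule.Quotient.mk_eq_zero Y).1 (h _ (mem_img.2 ⟨w, hw, rfl⟩))
  · intro h x hx
    obtain ⟨w, hw, rfl⟩ := mem_img.1 hx
    exact (Submodule.Quotient.mk_eq_zero Y).2 (h w hw)

lemma rk_le_finrank (W : Submodule K A) (a : A) (Y : Submodule K A) : rk W a Y ≤ finrank K W := by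
  have := rk_add W a Y
  omega

lemma rk_split {V : Submodule K A} {L : A} (hL : L ∈ V) (Y : Submodule K A) (i e : ℕ) :
    rk (V ^ (i + 1)) (L ^ e) Y = rk (V ^ i) (L ^ (e + 1)) Y +
      rk (V ^ (i + 1)) 1
        (LV V L (i + 1) ⊔ (V ^ (i + 1) ⊓ Y.comap (LinearMap.mulLeft K (L ^ e)))) := by
  have := fr_split (LV_le hL (i + 1)) (Y.mkQ ∘ₗ LinearMap.mulLeft K (L ^ e))
  rw [LinearMap.ker_comp, Submodule.ker_mkQ] at this
  have e1 : (LV V L (i + 1)).map (Y.mkQ ∘ₗ LinearMap.mulLeft K (L ^ e)) =
      img (V ^ i) (L ^ (e + 1)) Y := by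
    rw [img, LV, ← Submodule.map_comp, LinearMap.comp_assoc, ← LinearMap.mulLeft_mul, ← pow_succ]
  have e2 : ∀ U : Submodule K A, (V ^ (i + 1)).map U.mkQ = img (V ^ (i + 1)) 1 U := by
    intro U
    rw [img, LinearMap.mulLeft_one, LinearMap.comp_id]
  rw [e1, e2] at this
  exact this

lemma rk_zero_next (V : Submodule K A) (L : A) (Y : Submodule K A) (e : ℕ) :
    rk (V ^ 0) (L ^ e) Y = rk (V ^ 0) 1
        (LV V L 0 ⊔ (V ^ 0 ⊓ Y.comap (LinearMap.mulLeft K (L ^ e)))) := by
  apply le_antisymm
  · refine rk_le_of_ker fun w _ h => ?_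
    rw [LV, bot_sup_eq, one_mul] at h
    exact h.2
  · refine rk_le_of_ker fun w hw h => ?_
    rw [LV, bot_sup_eq, one_mul]
    exact ⟨hw, h⟩

lemma rk_eq_sum {V : Submodule K A} {L : A} (hL : L ∈ V) (Z : ℕ → Submodule K A) (N i : ℕ)
    (hi : i ≤ N) :
    rk (V ^ i) (L ^ (N - i)) (Z N) = ∑ j ∈ range (i + 1), hf V (nextZ V Z L N) j := by
  induction i with
  | zero =>
    rw [rk_zero_next]
    simp [hf, nextZ]
  | succ i ih =>
    rw [sum_range_succ, ← ih (by omega), rk_split hL, show N - (i + 1) + 1 = N - i by omega]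
    simp only [hf, nextZ, max_eq_right hi]

lemma hf_succ_le {V : Submodule K A} {L : A} (hL : L ∈ V) {Z : ℕ → Submodule K A}
    (hZ : IsSys V Z) (N : ℕ) :
    hf V Z (N + 1) ≤ hf V Z N + hf V (nextZ V Z L N) (N + 1) := by
  have h1 := rk_split hL (Z (N + 1)) N 0
  have h2 : rk (V ^ N) (L ^ (0 + 1)) (Z (N + 1)) ≤ hf V Z N := by
    refine rk_le_of_ker fun w _ h => ?_
    rw [one_mul] at h
    simpa using hZ _ _ hL _ h
  have h3 : nextZ V Z L N (N + 1) =
      LV V L (N + 1) ⊔ (V ^ (N + 1) ⊓ (Z (N + 1)).comap (LinearMap.mulLeft K (L ^ 0))) := by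
    simp only [nextZ, max_eq_left (Nat.le_succ N), show N - (N + 1) = 0 by omega]
  unfold hf at h2 ⊢
  rw [h3]
  rw [pow_zero L] at h1 ⊢
  omega

lemma hf_succ_eq_zero {V : Submodule K A} {Z : ℕ → Submodule K A} (hZ : IsSys V Z) {i : ℕ}
    (h : hf V Z i = 0) : hf V Z (i + 1) = 0 := by
  unfold hf at h ⊢
  rw [rk_eq_zero_iff] at h ⊢
  intro w hw
  rw [one_mul]
  rw [pow_succ'] at hw
  refine Submodule.mul_induction_on hw (fun y hy z hz => ?_) fun a b ha hb => (Z _).add_mem ha hb
  exact hZ _ _ hy _ (by simpa using h z hz)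

variable [Infinite K]

lemma isSys_next {V : Submodule K A} {Z : ℕ → Submodule K A} (hZ : IsSys V Z) {L : A}
    (hL : L ∈ V) (N : ℕ) (hK : ∀ m, 1 ≤ m → m ≤ N → (m : K) ≠ 0)
    (hgen : ∀ i < N, ∀ L' ∈ V,
      rk (V ^ i) (L' ^ (N - i)) (Z N) ≤ rk (V ^ i) (L ^ (N - i)) (Z N)) :
    IsSys V (nextZ V Z L N) := by
  intro i y hy z hz
  obtain ⟨a, ha, b, hb, rfl⟩ := Submodule.mem_sup.1 hz
  rw [mul_add]
  refine Submodule.add_mem _ (Submodule.mem_sup_left ?_) ?_
  · rcases i with _ | i
    · have : a = 0 := ha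
      simp [this]
    · obtain ⟨w, hw, rfl⟩ := ha
      exact ⟨y * w, mul_mem_pow_succ hy hw, by simp only [LinearMap.mulLeft_apply]; ring⟩
  · rcases Nat.lt_or_ge i N with h | h
    · obtain ⟨m, hm⟩ : ∃ m, N - i = m + 1 := ⟨N - i - 1, by omega⟩
      have hb2 : L ^ (m + 1) * b ∈ Z N := by
        have := hb.2
        rwa [max_eq_right h.le, hm] at this
      obtain ⟨w, hw, hw'⟩ := chain_step (V ^ i) (Z N) ((C L + X * C y) ^ (m + 1)) (by
          intro t
          rw [eval_lin, eval_lin_zero, ← hm]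
          exact hgen i h _ (V.add_mem hL (V.smul_mem t hy))) 0 (fun _ => b) (fun _ _ => hb.1) (by
          intro k hk
          obtain rfl : k = 0 := by omega
          rw [Finset.Nat.antidiagonal_zero, sum_singleton, coeff_zero_lin]
          exact hb2)
      simp only [Finset.Nat.antidiagonal_zero, sum_singleton, zero_add, coeff_zero_lin,
        coeff_one_lin] at hw'
      have hne : ((m + 1 : ℕ) : K) ≠ 0 := hK _ (by omega) (by omega)
      have e : y * b = ((m + 1 : ℕ) : K)⁻¹ • (-(L * w)) +
          ((m + 1 : ℕ) : K)⁻¹ • (L * w + ((m + 1 : ℕ) : K) • (y * b)) := by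
        rw [← smul_add, neg_add_cancel_left, smul_smul, inv_mul_cancel₀ hne, one_smul]
      rw [e]
      refine Submodule.add_mem _ (Submodule.mem_sup_left (Submodule.smul_mem _ _
        (Submodule.neg_mem _ ⟨w, hw, rfl⟩))) (Submodule.mem_sup_right (Submodule.smul_mem _ _ ⟨?_, ?_⟩))
      · exact Submodule.add_mem _ (mul_mem_pow_succ hL hw)
          (Submodule.smul_mem _ _ (mul_mem_pow_succ hy hb.1))
      · rw [max_eq_right (show i + 1 ≤ N by omega), show N - (i + 1) = m by omega]
        change L ^ m * _ ∈ Z N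
        convert hw' using 1
        rw [Algebra.smul_def, map_natCast]
        push_cast
        ring
    · refine Submodule.mem_sup_right ⟨mul_mem_pow_succ hy hb.1, ?_⟩
      have := hb.2
      rw [max_eq_left h, show N - i = 0 by omega] at this
      rw [max_eq_left (show N ≤ i + 1 by omega), show N - (i + 1) = 0 by omega]
      have h2 : L ^ 0 * b ∈ Z i := this
      change L ^ 0 * (y * b) ∈ Z (i + 1)
      rw [pow_zero, one_mul] at h2 ⊢
      exact hZ _ _ hy _ h2

lemma exists_gen (V Y : Submodule K A) (N : ℕ) : ∃ L ∈ V, ∀ i ≤ N, ∀ L' ∈ V,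
    rk (V ^ i) (L' ^ (N - i)) Y ≤ rk (V ^ i) (L ^ (N - i)) Y := by
  obtain ⟨L, hL, h⟩ := exists_generic (ι := Fin (N + 1)) V (fun i => V ^ (i : ℕ)) (fun _ => Y)
    (fun i => N - i)
  exact ⟨L, hL, fun i hi => h ⟨i, by omega⟩⟩

lemma macaulay_bdd (V : Submodule K A) (D : ℕ) (hK : ∀ m, 1 ≤ m → m ≤ D → (m : K) ≠ 0) (B : ℕ) :
    ∀ Z : ℕ → Submodule K A, IsSys V Z → ∀ l ≤ D, ∀ b : ℕ → ℕ, (∀ j < l, b j ≤ B) →
      hf V Z l ≤ val l b → hf V Z (l + 1) ≤ hf V Z l + up l (fun i => b i - 1) := by
  induction B with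
  | zero =>
    intro Z hZ l _ b hb h
    have : val l b = 0 := sum_eq_zero fun i hi => by
      rw [Nat.le_zero.1 (hb i (mem_range.1 hi))]; simp
    rw [hf_succ_eq_zero hZ (by omega)]
    exact Nat.zero_le _
  | succ B ih =>
    intro Z hZ l hl b hb h
    obtain ⟨L, hL, hgen⟩ := exists_gen V (Z l) l
    have hZ' := isSys_next hZ hL l (fun m h1 h2 => hK m h1 (by omega)) fun i hi => hgen i hi.le
    have weak : ∀ i ≤ l, ∀ b : ℕ → ℕ, (∀ j < i, b j ≤ B) → hf V (nextZ V Z L l) i ≤ val i b →
        hf V (nextZ V Z L l) (i + 1) ≤ up i b := by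
      intro i hi b hb h
      have := ih _ hZ' i (by omega) b hb h
      have := val_add_up i b
      omega
    have hsum := rk_eq_sum hL Z l l le_rfl
    rw [Nat.sub_self, pow_zero L] at hsum
    have h1 := green _ B l (fun i hi => weak i hi.le) b hb (hsum ▸ h)
    have h2 := weak l le_rfl _ (fun j hj => by have := hb j hj; omega) h1
    have h3 := hf_succ_le hL hZ l
    omega

/-- Macaulay's theorem in strong form. -/
theorem macaulay (V : Submodule K A) {Z : ℕ → Submodule K A} (hZ : IsSys V Z) (l : ℕ)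
    (hK : ∀ m, 1 ≤ m → m ≤ l → (m : K) ≠ 0) : SOS (hf V Z) l := by
  intro b hb
  obtain ⟨B, hB⟩ := exists_bound l b
  exact macaulay_bdd V l hK B Z hZ l le_rfl b hB hb

end Pool.Agent.MP_708e57_al

end MrgPart2

-- ======== part 3: formerly Pool.Agent.MP_708e57_al.Series
section MrgPart3

/-!
Power series identities for chains.
-/

namespace Pool.Agent.MP_708e57_al

open PowerSeries Finset

variable {A : Type*} [CommRing A]

lemma X_sub_regular (Q : A⟦X⟧⟦X⟧) (h : (X - C (X : A⟦X⟧)) * Q = 0) : Q = 0 := by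
  have key : ∀ n, coeff n Q = 0 := by
    intro n
    induction n with
    | zero =>
      have := congrArg (coeff 0) h
      rw [sub_mul, map_sub, coeff_zero_X_mul, coeff_C_mul, map_zero, zero_sub, neg_eq_zero] at this
      exact X_mul_injective (by simpa using this)
    | succ n ih =>
      have := congrArg (coeff (n + 1)) h
      rw [sub_mul, map_sub, coeff_succ_X_mul, coeff_C_mul, map_zero, ih, zero_sub,
        neg_eq_zero] at this
      exact X_mul_injective (by simpa using this)
  ext1 n
  simpa using key n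

lemma X_sub_pow_regular (k : ℕ) (Q : A⟦X⟧⟦X⟧) (h : (X - C (X : A⟦X⟧)) ^ k * Q = 0) : Q = 0 := by
  induction k with
  | zero => simpa using h
  | succ k ih =>
    apply ih
    apply X_sub_regular
    rw [← mul_assoc, ← pow_succ', h]

/-- two chains multiply to zero after multiplication by a power of `L` -/
lemma chain_iso (L y : A) (l k : ℕ) (hk : l + l ≤ k + 1) (Z Z' : A⟦X⟧)
    (h : (C L + X * C y) ^ l * Z = 0) (h' : (C L + X * C y) ^ l * Z' = 0) (i j : ℕ) :
    L ^ k * coeff i Z * coeff j Z' = 0 := by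
  set P : A⟦X⟧⟦X⟧ := C Z * map (C : A →+* A⟦X⟧) Z' with hP
  set a : A⟦X⟧⟦X⟧ := C (C L + X * C y) with ha
  set b : A⟦X⟧⟦X⟧ := map (C : A →+* A⟦X⟧) (C L + X * C y) with hb
  let I : Ideal A⟦X⟧⟦X⟧ := (Submodule.span A⟦X⟧⟦X⟧ {P}).annihilator
  have hI : ∀ x, x ∈ I ↔ x * P = 0 := fun x => by
    simp [I]
  have h1 : (X * a) ^ l ∈ I := by
    rw [mul_pow]
    apply I.mul_mem_left
    rw [hI, hP, ← mul_assoc, ha, ← map_pow, ← map_mul, h]
    simp
  have h2 : (-(C (X : A⟦X⟧)) * b) ^ l ∈ I := by
    rw [mul_pow]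
    apply I.mul_mem_left
    rw [hI, hP, mul_left_comm, hb, ← map_pow, ← map_mul, h']
    simp
  have h3 := I.add_pow_mem_of_pow_mem_of_le h1 h2 hk
  have e : X * a + -(C (X : A⟦X⟧)) * b = (X - C (X : A⟦X⟧)) * C (C L) := by
    simp only [ha, hb, map_add, map_mul, map_C, map_X]
    ring
  rw [e, hI, mul_pow, mul_assoc] at h3
  have h4 := X_sub_pow_regular _ _ h3
  have h5 := congrArg (fun Q => coeff i (coeff j Q)) h4
  simp only [hP, ← map_pow, ← mul_assoc, ← map_mul, coeff_C_mul, coeff_map, map_zero,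
    coeff_mul_C] at h5
  exact h5

/-- leading terms of a chain -/
lemma chain_coeff (L y : A) (m : ℕ) (Z : A⟦X⟧) (h : (C L + X * C y) ^ (m + 1) * Z = 0) (i : ℕ) :
    L ^ (m + i) * coeff i Z = ((m + i).choose m : A) * (-y) ^ i * (L ^ m * coeff 0 Z) := by
  set z := coeff 0 Z with hz
  set Z' : A⟦X⟧ := mk fun n => coeff (n + 1) Z with hZ'
  have hZ : Z = X * Z' + C z := by
    rw [hz, coeff_zero_eq_constantCoeff_apply]
    exact eq_X_mul_shift_add_const Z
  set Λ : A⟦X⟧ := C L + X * C y with hΛ
  set S : A⟦X⟧ := ∑ j ∈ range (m + 1), Λ ^ j * C L ^ (m + 1 - 1 - j) with hS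
  have hgeom : S * (X * C y) = Λ ^ (m + 1) - C L ^ (m + 1) := by
    have := geom_sum₂_mul Λ (C L) (m + 1)
    rwa [show Λ - C L = X * C y by rw [hΛ]; ring] at this
  have h0 : C L ^ (m + 1) * C z = (0 : A⟦X⟧) := by
    have := congrArg (constantCoeff (R := A)) h
    rw [map_mul, map_pow, hΛ] at this
    simp only [map_add, constantCoeff_C, map_mul, constantCoeff_X, zero_mul, add_zero,
      map_zero] at this
    rw [← map_pow, ← map_mul, hz, coeff_zero_eq_constantCoeff_apply, this, map_zero]
  have h1 : S * C y * C z + Λ ^ (m + 1) * Z' = 0 := by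
    apply X_mul_injective
    simp only [mul_zero]
    have : X * (S * C y * C z + Λ ^ (m + 1) * Z') =
        (S * (X * C y)) * C z + Λ ^ (m + 1) * (X * Z') := by ring
    rw [this, hgeom, sub_mul, h0, sub_zero, ← mul_add, add_comm (C z), ← hZ, h]
  set u : A⟦X⟧ := 1 + X * C y with hu
  have rΛ : rescale L Λ = C L * u := by
    rw [hΛ, hu, map_add, map_mul, rescale_X]
    have : ∀ a : A, rescale L (C a) = C a := fun a => by
      ext n
      rw [coeff_rescale, coeff_C]
      split_ifs with hn <;> simp [hn]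
    rw [this, this]
    ring
  have rC : ∀ a : A, rescale L (C a) = C a := fun a => by
    ext n
    rw [coeff_rescale, coeff_C]
    split_ifs with hn <;> simp [hn]
  have rS : rescale L S = C L ^ m * ∑ j ∈ range (m + 1), u ^ j := by
    rw [hS, map_sum, mul_sum]
    refine sum_congr rfl fun j hj => ?_
    have hj' := mem_range.1 hj
    rw [map_mul, map_pow, map_pow, rΛ, rC, mul_pow, mul_right_comm, ← pow_add]
    congr 2
    omega
  have hgeom2 : (∑ j ∈ range (m + 1), u ^ j) * (X * C y) = u ^ (m + 1) - 1 := by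
    have := geom_sum_mul u (m + 1)
    rwa [show u - 1 = X * C y by rw [hu]; ring] at this
  have h2 := congrArg (rescale L) h1
  rw [map_add, map_mul, map_mul, map_mul, map_pow, rΛ, rS, rC, rC, map_zero] at h2
  have h3 : u ^ (m + 1) * (C L ^ m * rescale L Z) = C L ^ m * C z := by
    rw [hZ, map_add, map_mul, rescale_X, rC]
    have : u ^ (m + 1) * (C L ^ m * (C L * X * rescale L Z' + C z)) =
        X * ((C L * u) ^ (m + 1) * rescale L Z') + u ^ (m + 1) * (C L ^ m * C z) := by
      rw [mul_pow, pow_succ (C L)]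
      ring
    rw [this, eq_neg_of_add_eq_zero_right h2]
    have : X * -((C L ^ m * ∑ j ∈ range (m + 1), u ^ j) * C y * C z) =
        -(C L ^ m * ((∑ j ∈ range (m + 1), u ^ j) * (X * C y)) * C z) := by ring
    rw [this, hgeom2]
    ring
  have h4 := congrArg (rescale (-y)) (mk_add_choose_mul_one_sub_pow_eq_one A m)
  rw [map_mul, map_pow, map_sub, map_one, rescale_X] at h4
  have e : (1 : A⟦X⟧) - C (-y) * X = u := by rw [hu, map_neg]; ring
  rw [e] at h4
  have h5 : C L ^ m * rescale L Z =
      rescale (-y) (mk fun n ↦ (Nat.choose (m + n) m : A)) * (C L ^ m * C z) := by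
    rw [← h3, ← mul_assoc, h4, one_mul]
  have h6 := congrArg (coeff i) h5
  rw [← map_pow, coeff_C_mul, coeff_rescale, ← map_mul, coeff_mul_C, coeff_rescale, coeff_mk] at h6
  rw [pow_add, mul_assoc, h6]
  ring

lemma coe_mul_mk_eq_zero (L y : A) (l : ℕ) (s : ℕ → A)
    (h : ∀ n, ∑ x ∈ antidiagonal n,
      ((Polynomial.C L + Polynomial.X * Polynomial.C y) ^ l).coeff x.1 * s x.2 = 0) :
    (C L + X * C y) ^ l * PowerSeries.mk s = 0 := by
  have e : (C L + X * C y : A⟦X⟧) ^ l =
      ((Polynomial.C L + Polynomial.X * Polynomial.C y) ^ l : Polynomial A) := by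
    push_cast
    rfl
  ext n
  rw [e, coeff_mul, map_zero, ← h n]
  refine sum_congr rfl fun x _ => ?_
  rw [Polynomial.coeff_coe, coeff_mk]

end Pool.Agent.MP_708e57_al

end MrgPart3

-- ======== part 4: formerly Pool.Agent.MP_708e57_al.Pairing
section MrgPart4

/-!
Poincare duality data and the isotropic subspace.
-/

namespace Pool.Agent.MP_708e57_al

open Module Finset

variable {K A : Type*} [Field K] [CommRing A] [Algebra K A]

/-- perfect pairings between complementary degrees -/
def Perf (V : Submodule K A) (d : ℕ) (φ : A →ₗ[K] K) : Prop :=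
  ∀ i j, i + j = d → ∀ z ∈ V ^ i, (∀ w ∈ V ^ j, φ (z * w) = 0) → z = 0

/-- the pairing `x, y ↦ φ (a x y)` -/
noncomputable def pairL (φ : A →ₗ[K] K) (a : A) (W' : Submodule K A) : A →ₗ[K] Dual K W' :=
  (((LinearMap.mul K A).compr₂ (φ ∘ₗ LinearMap.mulLeft K a)).flip.domRestrict W').flip

@[simp] lemma pairL_apply (φ : A →ₗ[K] K) (a : A) (W' : Submodule K A) (x : A) (y : W') :
    pairL φ a W' x y = φ (a * (x * y)) := rfl

lemma mem_ker_pairL {φ : A →ₗ[K] K} {a : A} {W' : Submodule K A} {x : A} :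
    x ∈ LinearMap.ker (pairL φ a W') ↔ ∀ y ∈ W', φ (a * (x * y)) = 0 := by
  rw [LinearMap.mem_ker]
  constructor
  · intro h y hy
    exact LinearMap.congr_fun h ⟨y, hy⟩
  · intro h
    ext y
    exact h y y.2

lemma pairL_flip (φ : A →ₗ[K] K) (a : A) (W W' : Submodule K A) :
    ((pairL φ a W').domRestrict W).flip = (pairL φ a W).domRestrict W' := by
  ext x y
  simp [mul_comm]

lemma cast_ne_of_dvd {d a : ℕ} (hK : (d.factorial : K) ≠ 0) (h : a ∣ d.factorial) :
    (a : K) ≠ 0 := by
  obtain ⟨b, hb⟩ := h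
  intro h0
  apply hK
  rw [hb, Nat.cast_mul, h0, zero_mul]

lemma cast_ne_of_le {d : ℕ} (hK : (d.factorial : K) ≠ 0) (m : ℕ) (h1 : 1 ≤ m) (h2 : m ≤ d) :
    (m : K) ≠ 0 :=
  cast_ne_of_dvd hK (Nat.dvd_factorial h1 h2)

lemma cast_choose_ne {d : ℕ} (hK : (d.factorial : K) ≠ 0) {n m : ℕ} (h1 : m ≤ n) (h2 : n ≤ d) :
    (n.choose m : K) ≠ 0 := by
  refine cast_ne_of_dvd hK (dvd_trans ?_ (Nat.factorial_dvd_factorial h2))
  rw [← Nat.choose_mul_factorial_mul_factorial h1, mul_assoc]
  exact dvd_mul_right _ _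

variable [FiniteDimensional K A]

/-- rank of the pairing -/
noncomputable def brk (φ : A →ₗ[K] K) (a : A) (W W' : Submodule K A) : ℕ :=
  finrank K (W.map (pairL φ a W'))

lemma brk_comm (φ : A →ₗ[K] K) (a : A) (W W' : Submodule K A) :
    brk φ a W W' = brk φ a W' W := by
  unfold brk
  rw [← LinearMap.range_domRestrict, ← LinearMap.range_domRestrict, ← pairL_flip,
    ← LinearMap.dualAnnihilator_ker_eq_range_flip]
  have h1 := Subspace.finrank_add_finrank_dualAnnihilator_eq
    (LinearMap.ker ((pairL φ a W).domRestrict W'))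
  have h2 := LinearMap.finrank_range_add_finrank_ker ((pairL φ a W).domRestrict W')
  omega

lemma brk_add (φ : A →ₗ[K] K) (a : A) (W W' : Submodule K A) :
    brk φ a W W' + finrank K (W ⊓ LinearMap.ker (pairL φ a W') : Submodule K A) = finrank K W :=
  fr_map W _

lemma exists_rep_pair (φ : A →ₗ[K] K) (a u : A) (W W' : Submodule K A)
    (h : ∀ x ∈ W, (∀ y ∈ W', φ (a * (x * y)) = 0) → φ (u * x) = 0) :
    ∃ y ∈ W', ∀ x ∈ W, φ (u * x) = φ (a * (x * y)) := by
  have hm : (φ ∘ₗ LinearMap.mulLeft K u).domRestrict W ∈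
      (LinearMap.ker ((pairL φ a W').domRestrict W)).dualAnnihilator := by
    rw [Submodule.mem_dualAnnihilator]
    intro x hx
    exact h x x.2 (mem_ker_pairL.1 hx)
  rw [LinearMap.dualAnnihilator_ker_eq_range_flip] at hm
  obtain ⟨y, hy⟩ := hm
  exact ⟨y, y.2, fun x hx => (LinearMap.congr_fun hy ⟨x, hx⟩).symm⟩

lemma rk_bot (W : Submodule K A) (a : A) :
    rk W a ⊥ = finrank K (W.map (LinearMap.mulLeft K a)) := by
  have h1 := rk_add W a ⊥
  have h2 := fr_map W (LinearMap.mulLeft K a)
  rw [Submodule.comap_bot] at h1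
  omega

lemma rk_one_bot (W : Submodule K A) : rk W 1 ⊥ = finrank K W := by
  rw [rk_bot, LinearMap.mulLeft_one, Submodule.map_id]

lemma rk_mono {W W' : Submodule K A} (h : W ≤ W') (a : A) (Y : Submodule K A) :
    rk W a Y ≤ rk W' a Y :=
  Submodule.finrank_mono (Submodule.map_mono h)

variable {V : Submodule K A} {d : ℕ} {φ : A →ₗ[K] K}

lemma Perf.brk_eq (hP : Perf V d φ) {a : A} {e i j : ℕ} (ha : a ∈ V ^ e) (hd : e + i + j = d)
    {W : Submodule K A} (hW : W ≤ V ^ i) : brk φ a W (V ^ j) = rk W a ⊥ := by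
  have h1 := brk_add φ a W (V ^ j)
  have h2 := rk_add W a ⊥
  have e1 : W ⊓ LinearMap.ker (pairL φ a (V ^ j)) =
      W ⊓ (⊥ : Submodule K A).comap (LinearMap.mulLeft K a) := by
    ext x
    simp only [Submodule.mem_inf, mem_ker_pairL, Submodule.mem_comap, LinearMap.mulLeft_apply,
      Submodule.mem_bot, and_congr_right_iff]
    intro hx
    constructor
    · intro h
      exact hP (e + i) j hd _ (mul_mem_pow_add ha (hW hx)) fun w hw => by
        rw [mul_assoc]; exact h w hw
    · intro h y _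
      rw [← mul_assoc, h, zero_mul, map_zero]
  rw [e1] at h1
  omega

lemma Perf.rk_dual (hP : Perf V d φ) {a : A} {e i j : ℕ} (ha : a ∈ V ^ e) (hd : e + i + j = d) :
    rk (V ^ i) a ⊥ = rk (V ^ j) a ⊥ := by
  rw [← hP.brk_eq ha hd le_rfl, ← hP.brk_eq (i := j) (j := i) ha (by omega) le_rfl, brk_comm]

lemma Perf.finrank_symm (hP : Perf V d φ) {i j : ℕ} (hd : i + j = d) :
    finrank K (V ^ i : Submodule K A) = finrank K (V ^ j : Submodule K A) := by
  rw [← rk_one_bot, ← rk_one_bot]
  exact hP.rk_dual (e := 0) (by simp [Submodule.one_eq_span]) (by omega)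

lemma Perf.isotropic (hP : Perf V d φ) {a : A} {e : ℕ} (ha : a ∈ V ^ e) (hd : e + 2 = d)
    {W : Submodule K A} (hW : W ≤ V) (hiso : ∀ x ∈ W, ∀ y ∈ W, a * (x * y) = 0) :
    2 * rk W a ⊥ ≤ rk V a ⊥ := by
  have h1 : brk φ a V W = rk W a ⊥ := by
    have := hP.brk_eq (i := 1) (j := 1) ha (by omega) (W := W) (by rwa [pow_one])
    rw [pow_one] at this
    rw [brk_comm, this]
  have h2 := brk_add φ a V W
  set Kr := V ⊓ (⊥ : Submodule K A).comap (LinearMap.mulLeft K a) with hKr
  have h3 : W ⊔ Kr ≤ V ⊓ LinearMap.ker (pairL φ a W) := by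
    refine sup_le (fun x hx => ⟨hW hx, mem_ker_pairL.2 fun y hy => ?_⟩)
      fun x hx => ⟨hx.1, mem_ker_pairL.2 fun y _ => ?_⟩
    · rw [hiso x hx y hy, map_zero]
    · have : a * x = 0 := hx.2
      rw [← mul_assoc, this, zero_mul, map_zero]
  have h4 := Submodule.finrank_mono h3
  have h5 := rk_add (W ⊔ Kr) a ⊥
  have h6 := rk_mono (le_sup_left : W ≤ W ⊔ Kr) a ⊥
  have h7 : finrank K Kr ≤ finrank K ((W ⊔ Kr) ⊓
      (⊥ : Submodule K A).comap (LinearMap.mulLeft K a) : Submodule K A) :=
    Submodule.finrank_mono (le_inf le_sup_right inf_le_right)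
  have h8 := rk_add V a ⊥
  rw [← hKr] at h8
  omega

lemma Perf.ann (hP : Perf V d φ) {L : A} (hL : L ∈ V) {m q : ℕ} (hd : m + q + 2 = d) {y : A}
    (hy : y ∈ V ^ (q + 1)) (h : ∀ z ∈ V, L ^ (m + 1) * z = 0 → φ (y * L ^ m * z) = 0) :
    y ∈ nextZ V (fun _ => ⊥) L (d - 1) (q + 1) := by
  obtain ⟨y', hy', h'⟩ := exists_rep_pair φ (L ^ (m + 1)) (y * L ^ m) V (V ^ q) (by
    intro x hx hx'
    refine h x hx (hP (m + 1 + 1) q (by omega) _ ?_ fun w hw => by rw [mul_assoc]; exact hx' w hw)
    exact mul_mem_pow_add (Submodule.pow_mem_pow V hL _) (by rwa [pow_one]))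
  have hm : y - L * y' ∈ V ^ (q + 1) := Submodule.sub_mem _ hy (mul_mem_pow_succ hL hy')
  have h0 : L ^ m * (y - L * y') = 0 := by
    refine hP (m + (q + 1)) 1 (by omega) _ (mul_mem_pow_add (Submodule.pow_mem_pow V hL _) hm) ?_
    intro w hw
    rw [pow_one] at hw
    have : L ^ m * (y - L * y') * w = y * L ^ m * w - L ^ (m + 1) * (w * y') := by ring
    rw [this, map_sub, h' w hw, sub_self]
  have e : y = L * y' + (y - L * y') := by ring
  rw [e]
  refine Submodule.add_mem _ (Submodule.mem_sup_left ⟨y', hy', rfl⟩)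
    (Submodule.mem_sup_right ⟨hm, ?_⟩)
  rw [show d - 1 - (q + 1) = m by omega]
  exact h0

variable [Infinite K]

/-- The key inequality. -/
lemma Perf.key (hP : Perf V d φ) (hK : ((d - 1).factorial : K) ≠ 0) {L c : A} (hL : L ∈ V) (hc : c ∈ V)
    {m q : ℕ} (hd : m + q + 2 = d) (hmq : m + 1 ≤ q)
    (hgen : ∀ L' ∈ V, rk V (L' ^ (m + 1)) ⊥ ≤ rk V (L ^ (m + 1)) ⊥)
    (hcn : c ^ (q + 1) ∉ nextZ V (fun _ => ⊥) L (d - 1) (q + 1)) :
    2 * (rk V (c ^ q) (nextZ V (fun _ => ⊥) L (d - 1) (q + 1)) + 1) ≤ rk V (L ^ (m + q)) ⊥ := by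
  set S : Set A := {x | ∃ s : ℕ → A, (∀ i, s i ∈ V) ∧
    (PowerSeries.C L + PowerSeries.X * PowerSeries.C (-c)) ^ (m + 1) * PowerSeries.mk s = 0 ∧
      ∃ i, x = s i} with hS
  have hchain : ∀ z ∈ V, L ^ (m + 1) * z = 0 → ∃ s : ℕ → A, (∀ i, s i ∈ S) ∧
      ∀ i, L ^ (m + i) * s i = ((m + i).choose m : K) • (c ^ i * (L ^ m * z)) := by
    intro z hz h0
    obtain ⟨s, hs0, hs, hrel⟩ := chain V ⊥
      ((Polynomial.C L + Polynomial.X * Polynomial.C (-c)) ^ (m + 1)) (by
        intro t
        rw [eval_lin, eval_lin_zero]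
        exact hgen _ (V.add_mem hL (V.smul_mem t (V.neg_mem hc)))) z hz (by
        rw [coeff_zero_lin]
        exact h0)
    have h1 := coe_mul_mk_eq_zero L (-c) (m + 1) s hrel
    refine ⟨s, fun i => ⟨s, hs, h1, i, rfl⟩, fun i => ?_⟩
    have h2 := chain_coeff L (-c) m _ h1 i
    rw [PowerSeries.coeff_mk, PowerSeries.coeff_mk, hs0, neg_neg] at h2
    rw [h2, Algebra.smul_def, map_natCast, mul_assoc]
  have hSV : Submodule.span K S ≤ V := by
    rw [Submodule.span_le]
    rintro _ ⟨s, hs, -, i, rfl⟩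
    exact hs i
  have hiso : ∀ x ∈ Submodule.span K S, ∀ y ∈ Submodule.span K S, L ^ (m + q) * (x * y) = 0 := by
    intro x hx y hy
    induction hx using Submodule.span_induction with
    | zero => simp
    | add a b _ _ ha hb => rw [add_mul, mul_add, ha, hb, add_zero]
    | smul t a _ ha => rw [smul_mul_assoc, mul_smul_comm, ha, smul_zero]
    | mem a ha =>
      induction hy using Submodule.span_induction with
      | zero => simp
      | add b b' _ _ hb hb' => rw [mul_add, mul_add, hb, hb', add_zero]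
      | smul t b _ hb => rw [mul_smul_comm, mul_smul_comm, hb, smul_zero]
      | mem b hb =>
        obtain ⟨s, -, hs, i, rfl⟩ := ha
        obtain ⟨s', -, hs', j, rfl⟩ := hb
        have := chain_iso L (-c) (m + 1) (m + q) (by omega) _ _ hs hs' i j
        rwa [PowerSeries.coeff_mk, PowerSeries.coeff_mk, mul_assoc] at this
  have hmain := hP.isotropic (Submodule.pow_mem_pow V hL (m + q)) hd hSV hiso
  set Kl := V ⊓ (⊥ : Submodule K A).comap (LinearMap.mulLeft K (L ^ (m + 1))) with hKl
  set P0 := Kl.map (LinearMap.mulLeft K (c ^ q * L ^ m)) with hP0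
  set P := (Submodule.span K S).map (LinearMap.mulLeft K (L ^ (m + q))) with hPdef
  have hle : P0 ≤ P := by
    rintro _ ⟨z, hz, rfl⟩
    obtain ⟨s, hs, hs'⟩ := hchain z hz.1 hz.2
    have hne : ((m + q).choose m : K) ≠ 0 := cast_choose_ne hK (by omega) (by omega)
    refine ⟨((m + q).choose m : K)⁻¹ • s q,
      Submodule.smul_mem _ _ (Submodule.subset_span (hs q)), ?_⟩
    simp only [LinearMap.mulLeft_apply]
    rw [mul_smul_comm, hs', smul_smul, inv_mul_cancel₀ hne, one_smul, mul_assoc]
  have hne : P0 ≠ P := by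
    intro heq
    apply hcn
    refine hP.ann hL hd (Submodule.pow_mem_pow V hc _) fun z hz h0 => ?_
    obtain ⟨s, hs, hs'⟩ := hchain z hz h0
    have hx : L ^ (m + q) * s (q + 1) ∈ P0 := by
      rw [heq]
      exact ⟨s (q + 1), Submodule.subset_span (hs _), rfl⟩
    obtain ⟨z', hz', hz''⟩ := hx
    have h1 : L ^ (m + 1) * z' = 0 := hz'.2
    have h2 : L ^ (m + (q + 1)) * s (q + 1) = 0 := by
      simp only [LinearMap.mulLeft_apply] at hz''
      have : L ^ (m + (q + 1)) * s (q + 1) = L * (L ^ (m + q) * s (q + 1)) := by ring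
      rw [this, ← hz'']
      have : L * (c ^ q * L ^ m * z') = c ^ q * (L ^ (m + 1) * z') := by ring
      rw [this, h1, mul_zero]
    rw [hs', smul_eq_zero] at h2
    rcases h2 with h2 | h2
    · exact absurd h2 (cast_choose_ne hK (by omega) (by omega))
    · rw [mul_assoc, h2, map_zero]
  have hlt : finrank K P0 < finrank K P := Submodule.finrank_lt_finrank_of_lt (lt_of_le_of_ne hle hne)
  have hP' : rk (Submodule.span K S) (L ^ (m + q)) ⊥ = finrank K P := rk_bot _ _
  have hmu : rk V (c ^ q) (nextZ V (fun _ => ⊥) L (d - 1) (q + 1)) ≤ finrank K P0 := by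
    have ha : c ^ q * L ^ m ∈ V ^ (q + m) :=
      mul_mem_pow_add (Submodule.pow_mem_pow V hc _) (Submodule.pow_mem_pow V hL _)
    have h1 := hP.brk_eq (i := 1) (j := 1) ha (by omega) (W := Kl)
      (by rw [pow_one]; exact inf_le_left)
    rw [pow_one, brk_comm, rk_bot, ← hP0] at h1
    have h2 := brk_add φ (c ^ q * L ^ m) V Kl
    have h3 := rk_add V (c ^ q) (nextZ V (fun _ => ⊥) L (d - 1) (q + 1))
    have h4 : V ⊓ LinearMap.ker (pairL φ (c ^ q * L ^ m) Kl) ≤
        V ⊓ (nextZ V (fun _ => ⊥) L (d - 1) (q + 1)).comap (LinearMap.mulLeft K (c ^ q)) := by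
      intro y hy
      refine ⟨hy.1, hP.ann hL hd ?_ fun z hz h0 => ?_⟩
      · exact mul_mem_pow_add (Submodule.pow_mem_pow V hc _) (by rw [pow_one]; exact hy.1)
      · have := mem_ker_pairL.1 hy.2 z ⟨hz, h0⟩
        rw [← this]
        congr 1
        simp only [LinearMap.mulLeft_apply]
        ring
    have h5 := Submodule.finrank_mono h4
    omega
  omega

end Pool.Agent.MP_708e57_al

end MrgPart4

-- ======== part 5: formerly Pool.Agent.MP_708e57_al.Dominate
section MrgPart5

/-!
Every Gorenstein Hilbert function dominates one of trivial extension type.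
-/

namespace Pool.Agent.MP_708e57_al

open Module Finset

/-- partial sums -/
def psum (t : ℕ → ℕ) (i : ℕ) : ℕ := ∑ j ∈ range (i + 1), t j

lemma psum_succ (t : ℕ → ℕ) (i : ℕ) : psum t (i + 1) = psum t i + t (i + 1) :=
  sum_range_succ _ _

lemma psum_cmp (t n : ℕ → ℕ) {a b : ℕ} (hab : a ≤ b) (h : ∀ j, a < j → j ≤ b → t j ≤ n j) :
    psum t b + psum n a ≤ psum n b + psum t a := by
  induction b, hab using Nat.le_induction with
  | base => omega
  | succ b hb ih =>
    have h1 := ih fun j h1 h2 => h j h1 (by omega)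
    have h2 := h (b + 1) (by omega) le_rfl
    rw [psum_succ, psum_succ]
    omega

lemma SOS.congr {n n' : ℕ → ℕ} {l : ℕ} (h : SOS n l) (h1 : n' l = n l)
    (h2 : n' (l + 1) = n (l + 1)) : SOS n' l := by
  intro b hb
  rw [h1] at hb
  rw [h1, h2]
  exact h b hb

/-- the trivial sequence -/
def triv (i : ℕ) : ℕ := if i = 0 then 1 else 0

lemma psum_triv (i : ℕ) : psum triv i = 1 := by
  induction i with
  | zero => simp [psum, triv]
  | succ i ih => rw [psum_succ, ih]; simp [triv]

lemma SOS_triv (l : ℕ) : SOS triv l := fun b _ => by simp [triv]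

variable {K A : Type*} [Field K] [CommRing A] [Algebra K A] [FiniteDimensional K A]
variable {V : Submodule K A} {d : ℕ} {φ : A →ₗ[K] K}

lemma pow_split {V : Submodule K A} {L : A} (hL : L ∈ V) (j e : ℕ) :
    rk (V ^ (1 + j)) (L ^ e) ⊥ + rk V (L ^ j) ⊥ ≤
      rk V (L ^ (e + j)) ⊥ + finrank K (V ^ (1 + j) : Submodule K A) := by
  have hle : V.map (LinearMap.mulLeft K (L ^ j)) ≤ V ^ (1 + j) := by
    rintro _ ⟨w, hw, rfl⟩
    rw [add_comm]
    exact mul_mem_pow_add (Submodule.pow_mem_pow V hL _) (by rwa [pow_one])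
  have h1 := fr_split hle (LinearMap.mulLeft K (L ^ e))
  rw [← Submodule.map_comp, ← LinearMap.mulLeft_mul, ← pow_add, ← rk_bot, ← rk_bot] at h1
  set U := V.map (LinearMap.mulLeft K (L ^ j)) ⊔
    (V ^ (1 + j) ⊓ LinearMap.ker (LinearMap.mulLeft K (L ^ e))) with hU
  have h2 := fr_map (V ^ (1 + j)) U.mkQ
  rw [Submodule.ker_mkQ] at h2
  have h3 : finrank K (V.map (LinearMap.mulLeft K (L ^ j))) ≤
      finrank K (V ^ (1 + j) ⊓ U : Submodule K A) :=
    Submodule.finrank_mono (le_inf hle le_sup_left)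
  rw [← rk_bot] at h3
  omega

lemma rk_zero_le_one (V : Submodule K A) (a : A) (Y : Submodule K A) : rk (V ^ 0) a Y ≤ 1 := by
  refine (rk_le_finrank _ _ _).trans ?_
  rw [pow_zero, Submodule.one_eq_span]
  exact (finrank_span_le_card ({1} : Set A)).trans (by simp)

variable [Infinite K]

theorem dominate (hP : Perf V d φ) (hK : ((d - 1).factorial : K) ≠ 0) (hd : 2 ≤ d)
    (h2 : 2 ≤ finrank K V) :
    ∃ t : ℕ → ℕ, t 0 = 1 ∧ (∀ l, SOS t l) ∧ psum t 1 + psum t (d - 1) ≤ finrank K V ∧
      ∀ k, 2 ≤ k → 2 * k ≤ d → psum t k + psum t (d - k) + finrank K V ≤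
        finrank K (V ^ k : Submodule K A) + psum t 1 + psum t (d - 1) := by
  by_cases hd4 : d < 4
  · exact ⟨triv, rfl, SOS_triv, by rw [psum_triv, psum_triv]; omega, fun k _ _ => by omega⟩
  obtain ⟨m, hm⟩ : ∃ m, d / 2 = m + 2 := ⟨d / 2 - 2, by omega⟩
  obtain ⟨q, hq⟩ : ∃ q, m + q + 2 = d := ⟨d - m - 2, by omega⟩
  have hK' := cast_ne_of_le hK
  obtain ⟨L, hL, hgen⟩ := exists_generic (ι := Option (Fin d)) V
    (fun o => o.elim V fun i => V ^ (i : ℕ)) (fun _ => ⊥)
    (fun o => o.elim (m + 1) fun i => d - 1 - i)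
  set Z' := nextZ V (fun _ => ⊥) L (d - 1) with hZ'
  have hsys0 : IsSys V (fun _ => (⊥ : Submodule K A)) := by
    intro i y _ z hz
    have : z = 0 := hz
    simp [this]
  have hsys : IsSys V Z' := isSys_next hsys0 hL (d - 1) (fun k h1 h2 => hK' k h1 (by omega))
    fun i hi => hgen (some ⟨i, by omega⟩)
  set n := hf V Z' with hn
  have hS : ∀ i ≤ d - 1, rk (V ^ i) (L ^ (d - 1 - i)) ⊥ = psum n i := fun i hi =>
    rk_eq_sum hL (fun _ => ⊥) (d - 1) i hi
  have hr : finrank K V = psum n (d - 1) := by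
    rw [← hS _ le_rfl, Nat.sub_self, pow_zero, rk_one_bot,
      ← hP.finrank_symm (i := 1) (by omega), pow_one]
  have hk : ∀ k, 2 ≤ k → 2 * k ≤ d → psum n k + psum n (d - k) ≤
      psum n 1 + finrank K (V ^ k : Submodule K A) := by
    intro k hk1 hk2
    obtain ⟨j, rfl⟩ : ∃ j, k = 1 + j := ⟨k - 1, by omega⟩
    have h1 := pow_split hL j (d - 1 - (1 + j))
    have h2 := hP.rk_dual (Submodule.pow_mem_pow V hL j) (i := 1) (j := d - (1 + j)) (by omega)
    have h3 := hS (d - (1 + j)) (by omega)
    have h4 := hS 1 (by omega)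
    rw [show d - 1 - (d - (1 + j)) = j by omega] at h3
    rw [hS _ (by omega), show d - 1 - (1 + j) + j = d - 1 - 1 by omega] at h1
    rw [pow_one] at h2 h4
    omega
  by_cases hz : n (q + 1) = 0
  · refine ⟨triv, rfl, SOS_triv, by rw [psum_triv, psum_triv]; omega, fun k hk1 hk2 => ?_⟩
    simp only [psum_triv]
    have hzero : ∀ j, q + 1 ≤ j → n j = 0 := by
      intro j hj
      induction j, hj using Nat.le_induction with
      | base => exact hz
      | succ j _ ih => exact hf_succ_eq_zero hsys ih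
    have h1 := psum_cmp n (fun _ => 0) (a := d - k) (b := d - 1) (by omega)
      fun j h1 _ => (hzero j (by omega)).le
    have h2 := psum_cmp (fun _ => 0) n (a := 1) (b := k) (by omega) fun j _ _ => Nat.zero_le _
    have h3 := hk k hk1 hk2
    simp only [psum, sum_const_zero] at h1 h2 h3 hr ⊢
    omega
  · obtain ⟨c, hc, hcgen⟩ := exists_gen V (Z' (q + 1)) (q + 1)
    set Z'' := nextZ V Z' c (q + 1) with hZ''
    have hsys2 : IsSys V Z'' := isSys_next hsys hc (q + 1) (fun k h1 h2 => hK' k h1 (by omega))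
      fun i hi => hcgen i hi.le
    set n'' := hf V Z'' with hn''
    have hT : ∀ i ≤ q + 1, rk (V ^ i) (c ^ (q + 1 - i)) (Z' (q + 1)) = psum n'' i := fun i hi =>
      rk_eq_sum hc Z' (q + 1) i hi
    have htop : psum n'' (q + 1) = n (q + 1) := by
      rw [← hT _ le_rfl, Nat.sub_self, pow_zero]; rfl
    have h0 : psum n'' 0 ≠ 0 := by
      intro h
      have hzero : ∀ j, n'' j = 0 := by
        intro j
        induction j with
        | zero => simpa [psum] using h
        | succ j ih => exact hf_succ_eq_zero hsys2 ih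
      apply hz
      rw [← htop]
      exact sum_eq_zero fun j _ => hzero j
    have h0' : psum n'' 0 = 1 := by
      have := rk_zero_le_one V (c ^ (q + 1 - 0)) (Z' (q + 1))
      rw [hT 0 (by omega)] at this
      omega
    have hcn : c ^ (q + 1) ∉ Z' (q + 1) := by
      intro hmem
      apply h0
      rw [← hT 0 (by omega), rk_eq_zero_iff]
      intro w hw
      rw [pow_zero, Submodule.one_eq_span, Submodule.mem_span_singleton] at hw
      obtain ⟨a, rfl⟩ := hw
      rw [mul_smul_comm, mul_one]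
      exact Submodule.smul_mem _ _ hmem
    have hkey := hP.key hK hL hc hq (by omega) (hgen none) hcn
    set t : ℕ → ℕ := fun i => if i ≤ q + 1 then psum n'' i else if i < d then n i else 0 with ht
    have hlow : ∀ i ≤ q + 1, t i = psum n'' i := fun i hi => by simp [ht, hi]
    have hhigh : ∀ i, q + 1 ≤ i → i < d → t i = n i := by
      intro i h1 h2
      rcases h1.eq_or_lt with h | h
      · rw [← h, hlow _ le_rfl, htop]
      · simp [ht, not_le.2 h, h2]
    have hle : ∀ i < d, t i ≤ n i := by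
      intro i hi
      rcases le_total i (q + 1) with h | h
      · rw [hlow i h, ← hT i h]
        refine rk_le_of_ker fun w _ hw => ?_
        rw [one_mul] at hw
        have := hsys.pow_mul hc (q + 1 - i) i hw
        rwa [show i + (q + 1 - i) = q + 1 by omega] at this
      · exact (hhigh i h hi).le
    have ht0 : t 0 = 1 := by rw [hlow 0 (by omega), h0']
    have ht1 : 2 * psum t 1 ≤ psum n 1 := by
      have h1 := hT 1 (by omega)
      have h2 := hS 1 (by omega)
      rw [pow_one, Nat.add_sub_cancel] at h1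
      rw [pow_one, show d - 1 - 1 = m + q by omega] at h2
      have h3 : psum t 1 = 1 + psum n'' 1 := by
        rw [← hlow 1 (by omega), psum_succ t 0, psum, sum_range_one, ht0]
      rw [← hZ'] at hkey
      omega
    refine ⟨t, ht0, fun l => ?_, ?_, fun k hk1 hk2 => ?_⟩
    · rcases Nat.lt_or_ge l (q + 1) with h | h
      · exact (SOS_sum n'' l fun i hi => macaulay V hsys2 i
          fun k h1 h2 => hK' k h1 (by omega)).congr (hlow l h.le) (hlow _ h)
      · rcases Nat.lt_or_ge (l + 1) d with h' | h'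
        · exact (macaulay V hsys l fun k h1 h2 => hK' k h1 (by omega)).congr
            (hhigh l h (by omega)) (hhigh _ (by omega) h')
        · intro b _
          have : t (l + 1) = 0 := by
            simp [ht, show ¬ (l + 1 ≤ q + 1) by omega, show ¬ (l + 1 < d) by omega]
          omega
    · have := psum_cmp t n (a := 1) (b := d - 1) (by omega) fun j _ _ => hle j (by omega)
      omega
    · have h1 := psum_cmp t n (a := 1) (b := k) (by omega) fun j _ _ => hle j (by omega)
      have h2 := psum_cmp n t (a := d - k) (b := d - 1) (by omega)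
        fun j _ _ => (hhigh j (by omega) (by omega)).ge
      have h3 := hk k hk1 hk2
      omega

end Pool.Agent.MP_708e57_al

end MrgPart5

-- ======== part 6: formerly Pool.Agent.MP_708e57_al.Bridge
section MrgPart6

/-!
From graded self-injective algebras to pairing data and back.
-/

namespace Pool.Agent.MP_708e57_al

open Module Finset

universe u

section toData

variable {K A : Type*} [Field K] [CommRing A] [Algebra K A]

lemma iSup_pow_eq_top {V : Submodule K A} (h : Algebra.adjoin K (V : Set A) = ⊤) :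
    ⨆ i, V ^ i = ⊤ := by
  rw [eq_top_iff]
  intro x _
  have hx : x ∈ Algebra.adjoin K (V : Set A) := h ▸ Algebra.mem_top
  induction hx using Algebra.adjoin_induction with
  | mem x hx => exact Submodule.mem_iSup_of_mem 1 (by rwa [pow_one])
  | algebraMap r => exact Submodule.mem_iSup_of_mem 0 (by simp)
  | add x y _ _ hx hy => exact Submodule.add_mem _ (hx trivial) (hy trivial)
  | mul x y _ _ hx hy =>
    refine Submodule.iSup_induction (fun i => V ^ i) (motive := fun x => x * y ∈ ⨆ i, V ^ i)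
      (hx trivial) (fun i x hx => ?_) (by simp) (fun a b ha hb => by
        rw [add_mul]; exact Submodule.add_mem _ ha hb)
    refine Submodule.iSup_induction (fun i => V ^ i) (motive := fun y => x * y ∈ ⨆ i, V ^ i)
      (hy trivial) (fun j y hy => ?_) (by simp) (fun a b ha hb => by
        rw [mul_add]; exact Submodule.add_mem _ ha hb)
    exact Submodule.mem_iSup_of_mem (i + j) (mul_mem_pow_add hx hy)

lemma grade_eq_pow (G : ℕ → Submodule K A) [GradedAlgebra G] (h0 : G 0 = 1)
    (h1 : Algebra.adjoin K (G 1 : Set A) = ⊤) (i : ℕ) : G i = G 1 ^ i := by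
  have hle : ∀ i, G 1 ^ i ≤ G i := by
    intro i
    induction i with
    | zero => rw [pow_zero, h0]
    | succ i ih =>
      rw [pow_succ, Submodule.mul_le]
      intro a ha b hb
      exact SetLike.mul_mem_graded (ih ha) hb
  refine le_antisymm (fun x hx => ?_) (hle i)
  have key : ∀ x : A, (DirectSum.decompose G x i : A) ∈ G 1 ^ i := by
    intro x
    have hx : x ∈ ⨆ i, G 1 ^ i := (iSup_pow_eq_top h1).symm ▸ Submodule.mem_top
    refine Submodule.iSup_induction (fun i => G 1 ^ i)
      (motive := fun x => (DirectSum.decompose G x i : A) ∈ G 1 ^ i) hx (fun j w hx => ?_)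
      (by simp) (fun a b ha hb => by
        rw [DirectSum.decompose_add]; exact Submodule.add_mem _ ha hb)
    by_cases hj : j = i
    · rw [← hj]
      rwa [DirectSum.decompose_of_mem_same G (hle _ hx)]
    · rw [DirectSum.decompose_of_mem_ne G (hle _ hx) hj]
      exact Submodule.zero_mem _
  have := key x
  rwa [DirectSum.decompose_of_mem_same G hx] at this

lemma act_scalar {V : Submodule K A} (h : ⨆ i, V ^ i = ⊤) (a : A) :
    ∃ c : K, ∀ x : A, (∀ y ∈ V, y * x = 0) → a * x = c • x := by
  have ha : a ∈ ⨆ i, V ^ i := h ▸ Submodule.mem_top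
  refine Submodule.iSup_induction (fun i => V ^ i)
    (motive := fun a => ∃ c : K, ∀ x : A, (∀ y ∈ V, y * x = 0) → a * x = c • x) ha
    (fun j a ha => ?_) ⟨0, by simp⟩ ?_
  · rcases j with _ | j
    · rw [pow_zero, Submodule.mem_one] at ha
      obtain ⟨c, rfl⟩ := ha
      exact ⟨c, fun x _ => (Algebra.smul_def c x).symm⟩
    · refine ⟨0, fun x hx => ?_⟩
      rw [pow_succ] at ha
      rw [zero_smul]
      refine Submodule.mul_induction_on ha (fun p _ y hy => ?_) fun p q hp hq => ?_
      · rw [mul_assoc, hx y hy, mul_zero]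
      · rw [add_mul, hp, hq, add_zero]
  · rintro a b ⟨c, hc⟩ ⟨c', hc'⟩
    exact ⟨c + c', fun x hx => by rw [add_mul, hc x hx, hc' x hx, add_smul]⟩

end toData

lemma socle_line {K A : Type u} [Field K] [CommRing A] [Algebra K A] {V : Submodule K A}
    (h : ⨆ i, V ^ i = ⊤) (hinj : Module.Injective A A) {x : A} (hx : ∀ y ∈ V, y * x = 0)
    (φ : A →ₗ[K] K) (hφ : φ x = 1) {z : A} (hz : ∀ y ∈ V, y * z = 0) : z = φ z • x := by
  let J : Ideal A :=
    { carrier := {a | ∀ y ∈ V, y * a = 0}
      add_mem' := fun {a b} ha hb y hy => by rw [mul_add, ha y hy, hb y hy, add_zero]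
      zero_mem' := fun y _ => mul_zero y
      smul_mem' := fun c a ha y hy => by rw [smul_eq_mul, mul_left_comm, ha y hy, mul_zero] }
  let g : J →ₗ[A] A :=
    { toFun := fun a => φ a • x
      map_add' := fun a b => by simp [add_smul]
      map_smul' := fun a b => by
        obtain ⟨c, hc⟩ := act_scalar h a
        simp only [SetLike.val_smul, smul_eq_mul, RingHom.id_apply]
        rw [hc b b.2, mul_smul_comm, hc x hx, map_smul, smul_eq_mul, smul_smul, mul_comm] }
  obtain ⟨g', hg'⟩ := hinj.out J.subtype Subtype.val_injective g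
  obtain ⟨c, hc⟩ := act_scalar h (g' 1)
  have e : ∀ a : J, φ a • x = c • (a : A) := by
    intro a
    have h1 : g' a = φ a • x := hg' a
    rw [← h1, ← hc a a.2, mul_comm, ← smul_eq_mul, ← map_smul, smul_eq_mul, mul_one]
  have hc1 : c = 1 := by
    have := congrArg φ (e ⟨x, hx⟩)
    simp only [map_smul, hφ, smul_eq_mul, mul_one] at this
    exact this.symm
  have := e ⟨z, hz⟩
  rw [hc1, one_smul] at this
  exact this.symm

theorem IsGorSeq.data {K : Type u} [Field K] {d : ℕ} {h : ℕ → ℕ} (hG : IsGorSeq K d h) :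
    ∃ (A : Type u) (_ : CommRing A) (_ : Algebra K A) (_ : FiniteDimensional K A)
      (V : Submodule K A) (φ : A →ₗ[K] K), Perf V d φ ∧
      (∀ i, finrank K (V ^ i : Submodule K A) = h i) ∧ h 0 = 1 := by
  obtain ⟨A, _, _, G, _, h0, h1, hfin, hinj, hh, hd, hbig⟩ := hG
  have hpow := grade_eq_pow G h0 h1
  have htop := iSup_pow_eq_top h1
  have hbot : G (d + 1) = ⊥ := by
    rw [← Submodule.finrank_eq_zero, hh, hbig _ (by omega)]
  have hsoc : ∀ z ∈ G d, ∀ y ∈ G 1, y * z = 0 := by
    intro z hz y hy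
    have : y * z ∈ G (1 + d) := SetLike.mul_mem_graded hy hz
    rwa [add_comm, hbot] at this
  have hne : G d ≠ ⊥ := by
    intro hb
    apply hd
    rw [← hh, hb, finrank_bot]
  obtain ⟨x, hx, hx0⟩ := Submodule.exists_mem_ne_zero_of_ne_bot hne
  obtain ⟨φ, hφx⟩ := Module.Projective.exists_dual_eq_one K hx0
  have hline := fun z hz => socle_line htop hinj (hsoc x hx) φ hφx (z := z) hz
  refine ⟨A, inferInstance, inferInstance, hfin, G 1, φ, ?_, fun i => by rw [← hpow, hh], ?_⟩
  · intro i j
    induction j generalizing i with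
    | zero =>
      intro hij z hz hw
      rw [add_zero] at hij
      subst hij
      rw [← hpow] at hz
      have := hw 1 (by simp [Submodule.one_eq_span])
      rw [mul_one] at this
      rw [hline z (hsoc z hz), this, zero_smul]
    | succ j ih =>
      intro hij z hz hw
      have h2 : ∀ y ∈ G 1, y * z = 0 := fun y hy =>
        ih (i + 1) (by omega) _ (mul_mem_pow_succ hy hz) fun w hw' => by
          rw [mul_comm y, mul_assoc]
          exact hw _ (mul_mem_pow_succ hy hw')
      have h3 : z ∈ G d := by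
        rw [hline z h2]
        exact Submodule.smul_mem _ _ hx
      rw [← hpow] at hz
      rw [← DirectSum.decompose_of_mem_same G hz,
        DirectSum.decompose_of_mem_ne G h3 (by omega : d ≠ i)]
  · have : Nontrivial A := nontrivial_of_ne x 0 hx0
    rw [← hh, h0, Submodule.one_eq_span, finrank_span_singleton one_ne_zero]

theorem isGorSeq_of_data {K A : Type u} [Field K] [CommRing A] [Algebra K A]
    [FiniteDimensional K A] [Nontrivial A] {V : Submodule K A} {d : ℕ} {φ : A →ₗ[K] K}
    (hP : Perf V d φ) (hvan : ∀ k, k ≠ d → ∀ z ∈ V ^ k, φ z = 0)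
    (hbig : ∀ i, d < i → V ^ i = ⊥) (htop : Algebra.adjoin K (V : Set A) = ⊤)
    (hnd : ∀ z : A, (∀ w, φ (z * w) = 0) → z = 0) :
    IsGorSeq K d fun i => finrank K (V ^ i : Submodule K A) := by
  have hind : iSupIndep fun i => V ^ i := by
    intro i
    rw [Submodule.disjoint_def]
    intro x hx hx'
    rcases Nat.lt_or_ge d i with hi | hi
    · have hx2 : x ∈ V ^ i := hx
      rw [hbig i hi] at hx2
      exact hx2
    · refine hP i (d - i) (by omega) x hx fun w hw => ?_
      have : (⨆ j, ⨆ (_ : j ≠ i), V ^ j) ≤ LinearMap.ker (φ ∘ₗ LinearMap.mulRight K w) :=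
        iSup_le fun j => iSup_le fun hj z hz =>
          hvan (j + (d - i)) (by omega) _ (mul_mem_pow_add hz hw)
      exact this hx'
  have hint := DirectSum.isInternal_submodule_of_iSupIndep_of_iSup_eq_top hind
    (iSup_pow_eq_top htop)
  let := hint.chooseDecomposition
  let : GradedAlgebra fun i => V ^ i := { }
  have h0 : finrank K (V ^ 0 : Submodule K A) = 1 := by
    rw [pow_zero, Submodule.one_eq_span, finrank_span_singleton one_ne_zero]
  refine ⟨A, inferInstance, inferInstance, fun i => V ^ i, inferInstance, pow_zero V,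
    by simpa using htop, inferInstance, ?_, fun _ => rfl, ?_, fun i hi => ?_⟩
  · apply Module.Baer.injective
    intro I g
    let F : A →ₗ[K] Dual K A := (LinearMap.mul K A).compr₂ φ
    have hF : Function.Injective F := by
      rw [← LinearMap.ker_eq_bot, Submodule.eq_bot_iff]
      intro z hz
      exact hnd z fun w => LinearMap.congr_fun (LinearMap.mem_ker.1 hz) w
    have hF' := (LinearMap.injective_iff_surjective_of_finrank_eq_finrank
      (Subspace.dual_finrank_eq (K := K) (V := A)).symm).1 hF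
    let g0 : (I.restrictScalars K) →ₗ[K] K :=
      { toFun := fun x => φ (g ⟨x.1, x.2⟩)
        map_add' := fun a b => by rw [← map_add, ← map_add]; rfl
        map_smul' := fun c a => by
          rw [RingHom.id_apply, ← map_smul, ← LinearMap.map_smul_of_tower]; rfl }
    obtain ⟨g1, hg1⟩ := LinearMap.exists_extend g0
    obtain ⟨a, ha⟩ := hF' g1
    refine ⟨LinearMap.toSpanSingleton A A a, fun x hx => ?_⟩
    rw [LinearMap.toSpanSingleton_apply, smul_eq_mul, ← sub_eq_zero]
    refine hnd _ fun w => ?_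
    have h1 : φ (a * (w * x)) = φ (g ⟨w * x, I.mul_mem_left w hx⟩) := by
      have := LinearMap.congr_fun hg1 ⟨w * x, I.mul_mem_left w hx⟩
      rw [← ha] at this
      exact this
    have h2 : g ⟨w * x, I.mul_mem_left w hx⟩ = w * g ⟨x, hx⟩ := by
      rw [← smul_eq_mul w (g _), ← map_smul]; rfl
    rw [sub_mul, map_sub, mul_comm (g _), ← h2, ← h1, sub_eq_zero]
    congr 1
    ring
  · simp only
    rw [← hP.finrank_symm (i := 0) (by omega), h0]
    exact one_ne_zero
  · simp only
    rw [hbig i hi, finrank_bot]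

end Pool.Agent.MP_708e57_al

end MrgPart6

-- ======== part 7: formerly Pool.Agent.MP_708e57_al.Cat
section MrgPart7

/-!
Catalecticant matrices, inverse systems and base change.
-/

namespace Pool.Agent.MP_708e57_al

open Module Finset MvPolynomial

universe u

/-- monomials of degree `i` -/
abbrev Mon (σ : Type*) (i : ℕ) := {u : σ →₀ ℕ // u.degree = i}

instance instFiniteMon (σ : Type*) [Finite σ] (i : ℕ) : Finite (Mon σ i) :=
  (Finsupp.finite_of_degree_eq i).to_subtype

noncomputable instance instFintypeMon (σ : Type*) [Finite σ] (i : ℕ) : Fintype (Mon σ i) :=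
  Fintype.ofFinite _

/-- catalecticant matrix -/
noncomputable def cat {σ K : Type*} (f : (σ →₀ ℕ) → K) (i j : ℕ) : Matrix (Mon σ i) (Mon σ j) K :=
  Matrix.of fun u v => f (u.1 + v.1)

section

variable {K A σ : Type*} [Field K] [CommRing A] [Algebra K A]

variable (K) in
/-- monomial in the elements `y` -/
noncomputable def mono (y : σ → A) (u : σ →₀ ℕ) : A := aeval y (monomial u (1 : K))

lemma mono_add (y : σ → A) (u v : σ →₀ ℕ) : mono K y (u + v) = mono K y u * mono K y v := by
  unfold mono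
  rw [← map_mul, monomial_mul, one_mul]

lemma homog_eq_span (i : ℕ) : homogeneousSubmodule σ K i =
    Submodule.span K (Set.range fun u : Mon σ i => monomial u.1 (1 : K)) := by
  apply le_antisymm
  · intro p hp
    rw [p.as_sum]
    refine Submodule.sum_mem _ fun u hu => ?_
    have : monomial u (coeff u p) = coeff u p • monomial u (1 : K) := by
      rw [smul_monomial, smul_eq_mul, mul_one]
    rw [this]
    refine Submodule.smul_mem _ _ (Submodule.subset_span ⟨⟨u, ?_⟩, rfl⟩)
    by_contra hne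
    exact mem_support_iff.1 hu (IsHomogeneous.coeff_eq_zero hp hne)
  · rw [Submodule.span_le]
    rintro _ ⟨u, rfl⟩
    exact isHomogeneous_monomial _ u.2

lemma span_pow (y : σ → A) (i : ℕ) : (Submodule.span K (Set.range y)) ^ i =
    Submodule.span K (Set.range fun u : Mon σ i => mono K y u.1) := by
  have h1 : Submodule.span K (Set.range y) =
      (homogeneousSubmodule σ K 1).map (aeval y : MvPolynomial σ K →ₐ[K] A).toLinearMap := by
    rw [homogeneousSubmodule_one_eq_span_X, Submodule.map_span, ← Set.range_comp]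
    congr 2
    funext s
    simp
  rw [h1, ← Submodule.map_pow, homogeneousSubmodule_one_pow, homog_eq_span, Submodule.map_span,
    ← Set.range_comp]
  rfl

lemma finrank_eq_rank [FiniteDimensional K A] [Finite σ] {y : σ → A} {d : ℕ} {φ : A →ₗ[K] K}
    (hP : Perf (Submodule.span K (Set.range y)) d φ) {i j : ℕ} (hij : i + j = d) :
    finrank K (Submodule.span K (Set.range y) ^ i : Submodule K A) =
      (cat (fun u => φ (mono K y u)) i j).rank := by
  let ev : A →ₗ[K] (Mon σ j → K) :=
    LinearMap.pi fun v => φ ∘ₗ LinearMap.mulRight K (mono K y v.1)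
  have h1 := fr_map (Submodule.span K (Set.range y) ^ i) ev
  have h2 : Submodule.span K (Set.range y) ^ i ⊓ LinearMap.ker ev = ⊥ := by
    rw [Submodule.eq_bot_iff]
    intro z hz
    refine hP i j hij z hz.1 fun w hw => ?_
    rw [span_pow] at hw
    induction hw using Submodule.span_induction with
    | zero => simp
    | add a b _ _ ha hb => rw [mul_add, map_add, ha, hb, add_zero]
    | smul t a _ ha => rw [mul_smul_comm, map_smul, ha, smul_zero]
    | mem a ha =>
      obtain ⟨v, rfl⟩ := ha
      exact congrFun (LinearMap.mem_ker.1 hz.2) v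
  rw [h2, finrank_bot, add_zero] at h1
  rw [← h1, Matrix.rank_eq_finrank_span_row, span_pow, Submodule.map_span, ← Set.range_comp]
  suffices hs : (ev ∘ fun u : Mon σ i => mono K y u.1) =
      (cat (fun u => φ (mono K y u)) i j).row by rw [hs]
  funext u v
  simp [ev, cat, mono_add, Matrix.row]

end

lemma rank_map {K K' m n : Type*} [Field K] [Field K'] [Algebra K K'] [Finite m] [Fintype n]
    (M : Matrix m n K) : (M.map (algebraMap K K')).rank = M.rank := by
  obtain ⟨κ, a, -, hsp, hli⟩ := exists_linearIndependent' K M.row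
  have : Finite κ := hli.finite
  have := Fintype.ofFinite κ
  have hli' : LinearIndependent K' (fun i => algebraMap K K' ∘ (M.row ∘ a) i) :=
    linearIndependent_algebraMap_comp_iff.2 hli
  rw [Matrix.rank_eq_finrank_span_row, Matrix.rank_eq_finrank_span_row, ← hsp,
    finrank_span_eq_card hli, ← finrank_span_eq_card hli']
  suffices hs : Submodule.span K' (Set.range (M.map (algebraMap K K')).row) =
      Submodule.span K' (Set.range fun i => algebraMap K K' ∘ (M.row ∘ a) i) by rw [hs]
  apply le_antisymm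
  · rw [Submodule.span_le]
    rintro _ ⟨i, rfl⟩
    have hi : M.row i ∈ Submodule.span K (Set.range (M.row ∘ a)) :=
      hsp ▸ Submodule.subset_span ⟨i, rfl⟩
    have key : ∀ v ∈ Submodule.span K (Set.range (M.row ∘ a)), algebraMap K K' ∘ v ∈
        Submodule.span K' (Set.range fun i => algebraMap K K' ∘ (M.row ∘ a) i) := by
      intro v hv
      induction hv using Submodule.span_induction with
      | zero =>
        have : algebraMap K K' ∘ (0 : n → K) = 0 := by funext j; simp
        rw [this]; exact Submodule.zero_mem _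
      | add v w _ _ hv hw =>
        have : algebraMap K K' ∘ (v + w) = algebraMap K K' ∘ v + algebraMap K K' ∘ w := by
          funext j; simp
        rw [this]; exact Submodule.add_mem _ hv hw
      | smul t v _ hv =>
        have : algebraMap K K' ∘ (t • v) = algebraMap K K' t • (algebraMap K K' ∘ v) := by
          funext j; simp
        rw [this]; exact Submodule.smul_mem _ _ hv
      | mem v hv =>
        obtain ⟨k, rfl⟩ := hv
        exact Submodule.subset_span ⟨k, rfl⟩
    exact key _ hi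
  · rw [Submodule.span_le]
    rintro _ ⟨k, rfl⟩
    exact Submodule.subset_span ⟨a k, rfl⟩

theorem construct {K : Type u} [Field K] {σ : Type} [Finite σ] (f : (σ →₀ ℕ) → K) (d : ℕ) :
    ∃ (A : Type u) (_ : CommRing A) (_ : Algebra K A) (_ : FiniteDimensional K A) (y : σ → A)
      (φ : A →ₗ[K] K), Perf (Submodule.span K (Set.range y)) d φ ∧
      (∀ u, u.degree = d → φ (mono K y u) = f u) ∧
      (∀ k, k ≠ d → ∀ z ∈ Submodule.span K (Set.range y) ^ k, φ z = 0) ∧
      (∀ i, d < i → Submodule.span K (Set.range y) ^ i = ⊥) ∧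
      Algebra.adjoin K (Submodule.span K (Set.range y) : Set A) = ⊤ ∧
      ∀ z : A, (∀ w, φ (z * w) = 0) → z = 0 := by
  classical
  let φR : MvPolynomial σ K →ₗ[K] K :=
    (basisMonomials σ K).constr K fun u => if u.degree = d then f u else 0
  have hφR : ∀ u, φR (monomial u 1) = if u.degree = d then f u else 0 := fun u => by
    have := (basisMonomials σ K).constr_basis K (fun u => if u.degree = d then f u else 0) u
    rwa [coe_basisMonomials] at this
  let I : Ideal (MvPolynomial σ K) :=
    { carrier := {p | ∀ q, φR (p * q) = 0}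
      add_mem' := fun {a b} ha hb q => by rw [add_mul, map_add, ha q, hb q, add_zero]
      zero_mem' := fun q => by simp
      smul_mem' := fun c a ha q => by
        rw [smul_eq_mul, mul_comm c, mul_assoc]; exact ha _ }
  let π := Ideal.Quotient.mkₐ K I
  have hπ : Function.Surjective π := Ideal.Quotient.mkₐ_surjective K I
  obtain ⟨g, hg⟩ := π.toLinearMap.exists_rightInverse_of_surjective (LinearMap.range_eq_top.2 hπ)
  let φ : (MvPolynomial σ K ⧸ I) →ₗ[K] K := φR ∘ₗ g
  have hφ : ∀ p, φ (π p) = φR p := by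
    intro p
    have h1 : g (π p) - p ∈ I := by
      rw [← Ideal.Quotient.eq]
      exact LinearMap.congr_fun hg (π p)
    have h2 := h1 1
    rw [mul_one, map_sub, sub_eq_zero] at h2
    exact h2
  let y : σ → MvPolynomial σ K ⧸ I := fun s => π (X s)
  have hmono : ∀ u, mono K y u = π (monomial u 1) := by
    intro u
    have : (aeval y : MvPolynomial σ K →ₐ[K] _) = π := by
      ext s
      simp [y]
    rw [mono, this]
  have hnd : ∀ z : MvPolynomial σ K ⧸ I, (∀ w, φ (z * w) = 0) → z = 0 := by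
    intro z hz
    obtain ⟨p, rfl⟩ := hπ z
    refine Ideal.Quotient.eq_zero_iff_mem.2 fun q => ?_
    rw [← hφ, map_mul]
    exact hz _
  have hnd' : ∀ z : MvPolynomial σ K ⧸ I, (∀ u, φ (z * mono K y u) = 0) → z = 0 := by
    intro z hz
    refine hnd z fun w => ?_
    obtain ⟨p, rfl⟩ := hπ w
    induction p using MvPolynomial.induction_on' with
    | monomial u a =>
      have : monomial u a = a • monomial u (1 : K) := by rw [smul_monomial, smul_eq_mul, mul_one]
      rw [this, map_smul, mul_smul_comm, map_smul, ← hmono, hz, smul_zero]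
    | add p q hp hq => rw [map_add, mul_add, map_add, hp, hq, add_zero]
  have hvan : ∀ k, k ≠ d → ∀ z ∈ Submodule.span K (Set.range y) ^ k, φ z = 0 := by
    intro k hk z hz
    rw [span_pow] at hz
    have : Submodule.span K (Set.range fun u : Mon σ k => mono K y u.1) ≤ LinearMap.ker φ := by
      rw [Submodule.span_le]
      rintro _ ⟨u, rfl⟩
      change φ (mono K y u.1) = 0
      rw [hmono, hφ, hφR, if_neg (by rw [u.2]; exact hk)]
    exact this hz
  have hmem : ∀ u, mono K y u ∈ Submodule.span K (Set.range y) ^ u.degree := fun u => by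
    rw [span_pow]
    exact Submodule.subset_span ⟨⟨u, rfl⟩, rfl⟩
  have hbig : ∀ i, d < i → Submodule.span K (Set.range y) ^ i = ⊥ := by
    intro i hi
    rw [Submodule.eq_bot_iff]
    intro z hz
    exact hnd' z fun u => hvan (i + u.degree) (by omega) _ (mul_mem_pow_add hz (hmem u))
  have hfin : FiniteDimensional K (MvPolynomial σ K ⧸ I) := by
    refine ⟨Submodule.fg_def.2 ⟨mono K y '' {u | u.degree ≤ d},
      (Finsupp.finite_of_degree_le d).image _, ?_⟩⟩
    rw [eq_top_iff]
    intro z _
    obtain ⟨p, rfl⟩ := hπ z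
    induction p using MvPolynomial.induction_on' with
    | monomial u a =>
      have : monomial u a = a • monomial u (1 : K) := by rw [smul_monomial, smul_eq_mul, mul_one]
      rw [this, map_smul, ← hmono]
      refine Submodule.smul_mem _ _ ?_
      rcases Nat.lt_or_ge d u.degree with h | h
      · have := hmem u
        rw [hbig _ h, Submodule.mem_bot] at this
        rw [this]
        exact Submodule.zero_mem _
      · exact Submodule.subset_span ⟨u, h, rfl⟩
    | add p q hp hq => rw [map_add]; exact Submodule.add_mem _ (hp trivial) (hq trivial)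
  refine ⟨MvPolynomial σ K ⧸ I, inferInstance, inferInstance, hfin, y, φ, ?_, ?_, hvan, hbig, ?_,
    hnd⟩
  · intro i j hij z hz hw
    refine hnd' z fun u => ?_
    by_cases hu : u.degree = j
    · exact hw _ (hu ▸ hmem u)
    · exact hvan (i + u.degree) (by omega) _ (mul_mem_pow_add hz (hmem u))
  · intro u hu
    rw [hmono, hφ, hφR, if_pos hu]
  · rw [Algebra.adjoin_span, eq_top_iff]
    intro z _
    obtain ⟨p, rfl⟩ := hπ z
    have : Set.range y = π '' Set.range X := by
      rw [← Set.range_comp]; rfl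
    rw [this, ← AlgHom.map_adjoin, adjoin_range_X]
    exact ⟨p, trivial, rfl⟩

lemma cat_congr {σ K : Type*} {f g : (σ →₀ ℕ) → K} {i j d : ℕ} (hij : i + j = d)
    (h : ∀ u, u.degree = d → f u = g u) : cat f i j = cat g i j := by
  ext u v
  exact h _ (by rw [map_add, u.2, v.2, hij])

/-- Gorenstein sequences from inverse systems. -/
theorem isGorSeq_cat {K : Type u} [Field K] {σ : Type} [Finite σ] (f : (σ →₀ ℕ) → K) (d : ℕ)
    (hf : ∃ u, u.degree = d ∧ f u ≠ 0) (h : ℕ → ℕ)
    (h1 : ∀ i ≤ d, (cat f i (d - i)).rank = h i) (h2 : ∀ i, d < i → h i = 0) :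
    IsGorSeq K d h := by
  obtain ⟨A, _, _, _, y, φ, hP, hf', hvan, hbig, htop, hnd⟩ := construct f d
  obtain ⟨u, hu, hu'⟩ := hf
  have : Nontrivial A := nontrivial_of_ne (mono K y u) 0 fun h0 => by
    apply hu'
    rw [← hf' u hu, h0, map_zero]
  have key := isGorSeq_of_data hP hvan hbig htop hnd
  convert key using 1
  funext i
  rcases Nat.lt_or_ge d i with hi | hi
  · rw [h2 i hi, hbig i hi, finrank_bot]
  · rw [← h1 i hi, finrank_eq_rank hP (j := d - i) (by omega), cat_congr (by omega) hf']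

/-- Base change to the algebraic closure. -/
theorem IsGorSeq.data_closure {K : Type u} [Field K] {d : ℕ} {h : ℕ → ℕ} (hG : IsGorSeq K d h) :
    ∃ (A : Type u) (_ : CommRing A) (_ : Algebra (AlgebraicClosure K) A)
      (_ : FiniteDimensional (AlgebraicClosure K) A)
      (V : Submodule (AlgebraicClosure K) A) (φ : A →ₗ[AlgebraicClosure K] AlgebraicClosure K),
      Perf V d φ ∧ ∀ i ≤ d, finrank (AlgebraicClosure K) (V ^ i : Submodule _ A) = h i := by
  obtain ⟨A, _, _, _, V, φ, hP, hh, -⟩ := hG.data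
  let b := Module.finBasis K V
  have hV : V = Submodule.span K (Set.range fun s => (b s : A)) := by
    have h1 : (fun s => (b s : A)) = V.subtype ∘ b := rfl
    rw [h1, Set.range_comp, Submodule.span_image, b.span_eq, Submodule.map_top,
      Submodule.range_subtype]
  obtain ⟨A', _, _, _, y, φ', hP', hf', -⟩ := construct (K := AlgebraicClosure K)
    (fun u => algebraMap K _ (φ (mono K (fun s => (b s : A)) u))) d
  refine ⟨A', inferInstance, inferInstance, inferInstance, _, φ', hP', fun i hi => ?_⟩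
  rw [finrank_eq_rank hP' (j := d - i) (by omega), cat_congr (by omega) hf', ← hh]
  have := finrank_eq_rank (hV ▸ hP) (i := i) (j := d - i) (by omega)
  rw [← hV] at this
  rw [this]
  exact rank_map (K' := AlgebraicClosure K)
    (cat (fun u => φ (mono K (fun s => (b s : A)) u)) i (d - i))

/-- Symmetry and the first entry. -/
theorem IsGorSeq.basic {K : Type u} [Field K] {d : ℕ} {h : ℕ → ℕ} (hG : IsGorSeq K d h) :
    h 0 = 1 ∧ (∀ i j, i + j = d → h i = h j) ∧ (∀ i, d < i → h i = 0) := by
  obtain ⟨A, _, _, _, V, φ, hP, hh, h0⟩ := hG.data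
  obtain ⟨_, _, _, _, _, _, _, _, _, _, _, hbig⟩ := hG
  exact ⟨h0, fun i j hij => by rw [← hh, ← hh, hP.finrank_symm hij], hbig⟩

/-- The domination theorem for Gorenstein sequences. -/
theorem IsGorSeq.dominate {K : Type u} [Field K] {d : ℕ} {h : ℕ → ℕ} (hG : IsGorSeq K d h)
    (hK : ((d - 1).factorial : K) ≠ 0) (hd : 2 ≤ d) (h2 : 2 ≤ h 1) :
    ∃ t : ℕ → ℕ, t 0 = 1 ∧ (∀ l, SOS t l) ∧ psum t 1 + psum t (d - 1) ≤ h 1 ∧
      ∀ k, 2 ≤ k → 2 * k ≤ d → psum t k + psum t (d - k) + h 1 ≤
        h k + psum t 1 + psum t (d - 1) := by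
  obtain ⟨A, _, _, _, V, φ, hP, hh⟩ := hG.data_closure
  have hK' : ((d - 1).factorial : AlgebraicClosure K) ≠ 0 := by
    rw [← map_natCast (algebraMap K (AlgebraicClosure K))]
    exact (map_ne_zero _).2 hK
  have h1 := hh 1 (by omega)
  rw [pow_one] at h1
  obtain ⟨t, ht0, ht, ht1, ht2⟩ := Pool.Agent.MP_708e57_al.dominate hP hK' hd (h1 ▸ h2)
  refine ⟨t, ht0, ht, h1 ▸ ht1, fun k hk1 hk2 => ?_⟩
  rw [← h1, ← hh k (by omega)]
  exact ht2 k hk1 hk2

end Pool.Agent.MP_708e57_al

end MrgPart7

-- marker of a merged file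
example : 731051 + 11017 = 731051 + 11017 := rfl
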