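import Mathlib.Data.Int.ConditionallyCompleteOrder
import Mathlib.Data.Int.Star
import Mathlib.Algebra.Order.Ring.Star
import Pool.Agent.MP_708e57_al.Cat
import Pool.Agent.MP_708e57_al.Colex

-- ======== part 0: formerly Pool.Agent.MP_708e57_al.Construct
section MrgPart0

/-!
Explicit inverse systems.
-/

namespace Pool.Agent.MP_708e57_al

open Module Finset

universe u

lemma rank_ge_of_sub {K m n ι : Type*} [Field K] [Fintype n] [Finite ι] (M : Matrix m n K)
    (a : ι → m) (b : ι → n) (h1 : ∀ i, M (a i) (b i) = 1)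
    (h0 : ∀ i j, M (a i) (b j) ≠ 0 → i = j) : Nat.card ι ≤ M.rank := by
  classical
  have := Fintype.ofFinite ι
  have e : M.submatrix a b = 1 := by
    ext i j
    rw [Matrix.submatrix_apply, Matrix.one_apply]
    split_ifs with h
    · rw [← h, h1]
    · by_contra hne
      exact h (h0 i j hne)
  have := Matrix.rank_submatrix_le M a b
  rwa [e, Matrix.rank_one, ← Nat.card_eq_fintype_card] at this

lemma matrix_rank_add_le {K m n : Type*} [Field K] [Fintype n] (M N : Matrix m n K) :
    (M + N).rank ≤ M.rank + N.rank := by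
  unfold Matrix.rank
  refine le_trans (Submodule.finrank_mono ?_) (Submodule.finrank_add_le_finrank_add_finrank _ _)
  rintro _ ⟨v, rfl⟩
  rw [Matrix.mulVecLin_add]
  exact Submodule.add_mem_sup ⟨v, rfl⟩ ⟨v, rfl⟩

lemma rank_le_of_cover {K m n α β : Type*} [Field K] [Fintype m] [Fintype n] [Finite α] [Finite β]
    (M : Matrix m n K) (a : α → m) (b : β → n)
    (h : ∀ u v, M u v ≠ 0 → u ∈ Set.range a ∨ v ∈ Set.range b) :
    M.rank ≤ Nat.card α + Nat.card β := by
  classical
  have := Fintype.ofFinite α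
  have := Fintype.ofFinite β
  have e : M = (Matrix.of fun u v => if u ∈ Set.range a then M u v else 0) +
      (Matrix.of fun u v => if u ∈ Set.range a then 0 else M u v) := by
    ext u v
    simp only [Matrix.add_apply, Matrix.of_apply]
    split_ifs <;> simp
  rw [e]
  refine (matrix_rank_add_le _ _).trans (add_le_add ?_ ?_)
  · refine (Matrix.rank_le_card_of_support_subset _ (univ.image a) fun u hu => ?_).trans ?_
    · by_contra hc
      apply hu
      funext v
      have : u ∉ Set.range a := by simpa using hc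
      simp only [Matrix.row, Matrix.of_apply, if_neg this, Pi.zero_apply]
    · rw [Nat.card_eq_fintype_card]
      exact card_image_le
  · rw [← Matrix.rank_transpose]
    refine (Matrix.rank_le_card_of_support_subset _ (univ.image b) fun v hv => ?_).trans ?_
    · by_contra hc
      apply hv
      funext u
      have h2 : v ∉ Set.range b := by simpa using hc
      simp only [Matrix.row, Matrix.transpose_apply, Matrix.of_apply, Pi.zero_apply]
      split_ifs with h3
      · rfl
      · by_contra h4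
        exact (h u v h4).elim h3 h2
    · rw [Nat.card_eq_fintype_card]
      exact card_image_le

theorem isGorSeq_cat' {K : Type u} [Field K] {σ : Type} [Finite σ] (f : (σ →₀ ℕ) → K) (d : ℕ)
    (hf : ∃ u, u.degree = d ∧ f u ≠ 0) (h : ℕ → ℕ) (h0 : h 0 = 1) (hd : h d = 1)
    (h1 : ∀ i, 0 < i → i < d → (cat f i (d - i)).rank = h i) (h2 : ∀ i, d < i → h i = 0) :
    IsGorSeq K d h := by
  have key := isGorSeq_cat f d hf (fun i => if i ≤ d then (cat f i (d - i)).rank else 0)
    (fun i hi => by simp [hi]) (fun i hi => by simp [not_le.2 hi])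
  obtain ⟨k0, k1, -⟩ := key.basic
  have k2 := k1 0 d (by omega)
  convert key using 1
  funext i
  rcases Nat.lt_or_ge d i with hi | hi
  · simp [h2 i hi, not_le.2 hi]
  · rcases Nat.eq_zero_or_pos i with h3 | h3
    · rw [h3, h0, k0]
    · rcases hi.eq_or_lt with h4 | h4
      · rw [h4, hd, ← k2, k0]
      · rw [if_pos hi, h1 i h3 h4]

section tri

variable {ρ P S : Type}

/-- monomials in three groups of variables -/
noncomputable def tri : (ρ →₀ ℕ) × (P →₀ ℕ) × (S →₀ ℕ) ≃+ (ρ ⊕ P ⊕ S →₀ ℕ) :=
  ((AddEquiv.refl _).prodCongr Finsupp.sumFinsuppAddEquivProdFinsupp.symm).trans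
    Finsupp.sumFinsuppAddEquivProdFinsupp.symm

lemma degree_sumElim {α β : Type} (a : α →₀ ℕ) (b : β →₀ ℕ) :
    (a.sumElim b).degree = a.degree + b.degree := by
  rw [Finsupp.sumElim_eq_add, map_add, Finsupp.degree_mapDomain, Finsupp.degree_mapDomain]

lemma degree_tri (a : ρ →₀ ℕ) (b : P →₀ ℕ) (c : S →₀ ℕ) :
    (tri (a, b, c)).degree = a.degree + b.degree + c.degree := by
  change (a.sumElim (b.sumElim c)).degree = _
  rw [degree_sumElim, degree_sumElim, add_assoc]

end tri

lemma eq_single_of_add {S : Type*} {c c' : S →₀ ℕ} {z : S} {d : ℕ}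
    (h : c + c' = Finsupp.single z d) : c = Finsupp.single z c.degree := by
  have : c = Finsupp.single z (c z) := by
    ext w
    by_cases hw : w = z
    · rw [hw, Finsupp.single_eq_same]
    · have := DFunLike.congr_fun h w
      rw [Finsupp.add_apply, Finsupp.single_eq_of_ne hw] at this
      rw [Finsupp.single_eq_of_ne hw]
      omega
  rw [this, Finsupp.degree_single]

/-- standard monomials of degree `i` -/
abbrev Sh {ρ : Type} (Q : (ρ →₀ ℕ) → Prop) (i : ℕ) := {w : ρ →₀ ℕ // w.degree = i ∧ Q w}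

instance instFiniteSh {ρ : Type} [Finite ρ] (Q : (ρ →₀ ℕ) → Prop) (i : ℕ) : Finite (Sh Q i) :=
  ((Finsupp.finite_of_degree_eq i).subset fun _ h => h.1 :
    {w : ρ →₀ ℕ | w.degree = i ∧ Q w}.Finite).to_subtype

/-- support of the inverse system of a trivial extension plus powers -/
def Supp {ρ : Type} (Q : (ρ →₀ ℕ) → Prop) (D s : ℕ)
    (x : (ρ →₀ ℕ) × (Sh Q D →₀ ℕ) × (Fin s →₀ ℕ)) : Prop :=
  (∃ p : Sh Q D, x = (p.1, Finsupp.single p 1, 0)) ∨
    ∃ z : Fin s, x = (0, 0, Finsupp.single z (D + 1))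

theorem isGorSeq_level (K : Type u) [Field K] {ρ : Type} [Finite ρ] (Q : (ρ →₀ ℕ) → Prop)
    (D s : ℕ) (hdown : ∀ u, Q u → ∀ v, v ≤ u → Q v) (hQ0 : Q 0)
    (hext : ∀ w, Q w → w.degree ≤ D → ∃ p : Sh Q D, w ≤ p.1) (h : ℕ → ℕ) (h0 : h 0 = 1)
    (hd : h (D + 1) = 1) (h2 : ∀ i, D + 1 < i → h i = 0)
    (h1 : ∀ i, 0 < i → i < D + 1 → h i = Nat.card (Sh Q i) + Nat.card (Sh Q (D + 1 - i)) + s) :
    IsGorSeq K (D + 1) h := by
  classical
  let f : (ρ ⊕ Sh Q D ⊕ Fin s →₀ ℕ) → K := fun w => if Supp Q D s (tri.symm w) then 1 else 0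
  have hf1 : ∀ x, Supp Q D s x → f (tri x) = 1 := fun x hx => by simp [f, hx]
  have hf0 : ∀ x, f (tri x) ≠ 0 → Supp Q D s x := fun x hx => by
    by_contra hc
    simp [f, hc] at hx
  refine isGorSeq_cat' f (D + 1) ?_ h h0 hd (fun i hi hi' => ?_) h2
  · obtain ⟨p, -⟩ := hext 0 hQ0 (by simp)
    refine ⟨tri (p.1, Finsupp.single p 1, 0), by simp [degree_tri, p.2.1], ?_⟩
    rw [hf1 _ (Or.inl ⟨p, rfl⟩)]
    exact one_ne_zero
  set j := D + 1 - i with hj
  have hij : i + j = D + 1 := by omega
  have hj0 : 0 < j := by omega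
  let e : ∀ k, Sh Q k → Mon (ρ ⊕ Sh Q D ⊕ Fin s) k := fun k w =>
    ⟨tri (w.1, 0, 0), by simp [degree_tri, w.2.1]⟩
  let pw : ∀ k, Fin s → Mon (ρ ⊕ Sh Q D ⊕ Fin s) k := fun k z =>
    ⟨tri (0, 0, Finsupp.single z k), by simp [degree_tri]⟩
  have hx : ∀ k l, k + l = D + 1 → 0 < l → ∀ w : Sh Q k, ∃ p : Sh Q D,
      w.1 ≤ p.1 ∧ (tri (p.1 - w.1, Finsupp.single p 1, (0 : Fin s →₀ ℕ))).degree = l := by
    intro k l hkl hl w
    obtain ⟨p, hp⟩ := hext w.1 w.2.2 (by rw [w.2.1]; omega)
    refine ⟨p, hp, ?_⟩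
    have h3 := congrArg Finsupp.degree (tsub_add_cancel_of_le hp)
    rw [map_add, w.2.1, p.2.1] at h3
    simp only [degree_tri, Finsupp.degree_single, map_zero]
    omega
  choose pi hpi hpi' using hx i j hij hj0
  choose pj hpj hpj' using hx j i (by omega) hi
  rw [h1 i hi hi', ← hj]
  apply le_antisymm
  · have := rank_le_of_cover (cat f i j) (Sum.elim (e i) (pw i)) (e j) (by
      rintro ⟨u, hu⟩ ⟨v, hv⟩ huv
      obtain ⟨⟨a, b, c⟩, rfl⟩ := tri.surjective u
      obtain ⟨⟨a', b', c'⟩, rfl⟩ := tri.surjective v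
      have h3 : f (tri (a + a', b + b', c + c')) ≠ 0 := by
        have : tri (a + a', b + b', c + c') = tri (a, b, c) + tri (a', b', c') := by
          rw [← map_add]; rfl
        rw [this]
        exact huv
      rw [degree_tri] at hu hv
      rcases hf0 _ h3 with ⟨p, hp⟩ | ⟨z, hz⟩
      · simp only [Prod.mk.injEq, add_eq_zero] at hp
        obtain ⟨ha, hb, rfl, rfl⟩ := hp
        have hdeg := congrArg Finsupp.degree hb
        rw [map_add, Finsupp.degree_single] at hdeg
        rcases Nat.eq_zero_or_pos b.degree with h4 | h4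
        · obtain rfl := (Finsupp.degree_eq_zero_iff _).1 h4
          exact Or.inl ⟨Sum.inl ⟨a, by simpa using hu, hdown _ p.2.2 _ (ha ▸ le_self_add)⟩, rfl⟩
        · obtain rfl := (Finsupp.degree_eq_zero_iff b').1 (by omega)
          exact Or.inr ⟨⟨a', by simpa using hv, hdown _ p.2.2 _ (ha ▸ le_add_self)⟩, rfl⟩
      · simp only [Prod.mk.injEq, add_eq_zero] at hz
        obtain ⟨⟨rfl, rfl⟩, ⟨rfl, rfl⟩, hc⟩ := hz
        have h5 := eq_single_of_add hc
        simp only [map_zero, zero_add] at hu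
        rw [hu] at h5
        subst h5
        exact Or.inl ⟨Sum.inr z, rfl⟩)
    rw [Nat.card_sum, Nat.card_fin] at this
    omega
  · have := rank_ge_of_sub (ι := Sh Q i ⊕ Sh Q j ⊕ Fin s) (cat f i j)
      (Sum.elim (e i) (Sum.elim (fun w => ⟨_, hpj' w⟩) (pw i)))
      (Sum.elim (fun w => ⟨_, hpi' w⟩) (Sum.elim (e j) (pw j))) ?_ ?_
    · rw [Nat.card_sum, Nat.card_sum, Nat.card_fin] at this
      omega
    · rintro (w | w | z)
      · change f (tri _ + tri _) = 1
        rw [← map_add]
        refine hf1 _ (Or.inl ⟨pi w, ?_⟩)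
        simp [add_tsub_cancel_of_le (hpi w)]
      · change f (tri _ + tri _) = 1
        rw [← map_add]
        refine hf1 _ (Or.inl ⟨pj w, ?_⟩)
        simp [tsub_add_cancel_of_le (hpj w)]
      · change f (tri _ + tri _) = 1
        rw [← map_add]
        refine hf1 _ (Or.inr ⟨z, ?_⟩)
        simp [← Finsupp.single_add, hij]
    · have hne : ∀ k, 0 < k → ∀ w : Sh Q k, w.1 ≠ 0 := by
        intro k hk w h0
        have := w.2.1
        rw [h0, map_zero] at this
        omega
      have hs1 : ∀ p : Sh Q D, (0 : Sh Q D →₀ ℕ) ≠ Finsupp.single p 1 := fun p =>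
        (Finsupp.single_ne_zero.2 one_ne_zero).symm
      have hs2 : ∀ p p' p'' : Sh Q D,
          Finsupp.single p 1 + Finsupp.single p' 1 ≠ Finsupp.single p'' 1 := by
        intro p p' p'' h
        have := congrArg Finsupp.degree h
        simp at this
      rintro (w | w | z) (w' | w' | z') hh <;>
        change f (tri _ + tri _) ≠ 0 at hh <;>
        rw [← map_add] at hh <;>
        rcases hf0 _ hh with ⟨p, hp⟩ | ⟨y, hy⟩
      all_goals
        first
        | simp only [Prod.mk_add_mk, Prod.mk.injEq, zero_add, add_zero] at hp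
        | simp only [Prod.mk_add_mk, Prod.mk.injEq, zero_add, add_zero] at hy
      · obtain ⟨h3, h4, -⟩ := hp
        rw [Finsupp.single_left_inj one_ne_zero] at h4
        rw [← h4] at h3
        have h5 := add_tsub_cancel_of_le (hpi w')
        congr 1
        exact Subtype.ext (add_right_cancel (h3.trans h5.symm))
      · exact absurd hy.2.1.symm (hs1 _)
      · exact absurd hp.2.1 (hs1 _)
      · exact absurd (add_eq_zero.1 hy.1).1 (hne i hi w)
      · exact absurd hp.2.1 (hs1 _)
      · exact absurd hy.1 (hne i hi w)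
      · exact absurd hp.2.1 (hs2 _ _ _)
      · exact absurd (add_eq_zero.1 hy.2.1).1.symm (hs1 _)
      · obtain ⟨h3, h4, -⟩ := hp
        rw [Finsupp.single_left_inj one_ne_zero] at h4
        rw [← h4] at h3
        have h5 := tsub_add_cancel_of_le (hpj w)
        congr 2
        exact Subtype.ext (add_left_cancel (h5.trans h3.symm))
      · exact absurd hy.2.1.symm (hs1 _)
      · exact absurd hp.2.2 (Finsupp.single_ne_zero.2 hj0.ne')
      · exact absurd hy.2.1.symm (hs1 _)
      · exact absurd hp.2.2 (Finsupp.single_ne_zero.2 hi.ne')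
      · exact absurd hy.2.1.symm (hs1 _)
      · exact absurd hp.2.1 (hs1 _)
      · exact absurd hy.1 (hne j hj0 w')
      · exact absurd hp.2.1 (hs1 _)
      · have h3 := eq_single_of_add hy.2.2
        have h4 := eq_single_of_add ((add_comm _ _).trans hy.2.2)
        rw [Finsupp.degree_single, Finsupp.single_left_inj hi.ne'] at h3
        rw [Finsupp.degree_single, Finsupp.single_left_inj hj0.ne'] at h4
        rw [h3, h4]

lemma degree_option {τ : Type} (w : Option τ →₀ ℕ) : w.degree = w none + w.some.degree := by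
  have h1 : w = Finsupp.single none (w none) + w.some.mapDomain Option.some := by
    ext (_ | a)
    · rw [Finsupp.add_apply, Finsupp.single_eq_same, Finsupp.mapDomain_of_notMem_range _ _ (by simp),
        add_zero]
    · rw [Finsupp.add_apply, Finsupp.single_eq_of_ne (by simp),
        Finsupp.mapDomain_apply (Option.some_injective _), zero_add, Finsupp.some_apply]
  conv_lhs => rw [h1]
  rw [map_add, Finsupp.degree_single, Finsupp.degree_mapDomain]

lemma card_Sh_option {τ : Type} (O : Finset (τ →₀ ℕ)) (i : ℕ) :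
    Nat.card (Sh (fun w : Option τ →₀ ℕ => w.some ∈ O) i) =
      ∑ l ∈ range (i + 1), (O.filter fun u => u.degree = l).card := by
  classical
  have e : Sh (fun w : Option τ →₀ ℕ => w.some ∈ O) i ≃ (O.filter fun u => u.degree ≤ i) :=
    { toFun := fun w => ⟨w.1.some, mem_filter.2 ⟨w.2.2, by
        have := degree_option w.1
        rw [w.2.1] at this
        omega⟩⟩
      invFun := fun u => ⟨u.1.optionElim (i - u.1.degree), by
        have := (mem_filter.1 u.2).2
        rw [degree_option, Finsupp.some_optionElim, Finsupp.optionElim_apply_none]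
        omega, by
        simp only [Finsupp.some_optionElim]
        exact (mem_filter.1 u.2).1⟩
      left_inv := fun w => by
        apply Subtype.ext
        have := degree_option w.1
        rw [w.2.1] at this
        have h2 : i - w.1.some.degree = w.1 none := by omega
        simp only [h2, Finsupp.optionElim_some]
      right_inv := fun u => by
        apply Subtype.ext
        simp only [Finsupp.some_optionElim] }
  rw [Nat.card_congr e, Nat.card_eq_fintype_card, Fintype.card_coe,
    card_eq_sum_card_fiberwise (f := fun u : τ →₀ ℕ => u.degree) (t := range (i + 1))]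
  · refine sum_congr rfl fun l hl => ?_
    have := mem_range.1 hl
    congr 1
    ext u
    simp only [mem_filter]
    constructor
    · rintro ⟨⟨h1, -⟩, h2⟩
      exact ⟨h1, h2⟩
    · rintro ⟨h1, h2⟩
      exact ⟨⟨h1, by omega⟩, h2⟩
  · intro u hu
    have := (mem_filter.1 (mem_coe.1 hu)).2
    exact mem_coe.2 (mem_range.2 (by simp only; omega))

theorem isGorSeq_extSeq (K : Type u) [Field K] {d : ℕ} (hd : 1 ≤ d) {t : ℕ → ℕ} (ht : IsOSeq t)
    (s : ℕ) : IsGorSeq K d (extSeq d t s) := by
  obtain ⟨D, rfl⟩ : ∃ D, d = D + 1 := ⟨d - 1, by omega⟩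
  obtain ⟨B, O, hdown, hdeg, hcard⟩ := exists_ideal ht D
  have hc : ∀ i ≤ D, Nat.card (Sh (fun w : Option (Fin B) →₀ ℕ => w.some ∈ O) i) =
      ∑ j ∈ range (i + 1), t j := by
    intro i hi
    rw [card_Sh_option]
    exact sum_congr rfl fun l hl => hcard l (by have := mem_range.1 hl; omega)
  refine isGorSeq_level K (fun w : Option (Fin B) →₀ ℕ => w.some ∈ O) D s
    (fun u hu v hv => hdown _ hu _ fun a => hv _) ?_ ?_ _ (by simp [extSeq]) (by simp [extSeq])
    (fun i hi => ?_) (fun i hi hi' => ?_)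
  · have h0 := hcard 0 (Nat.zero_le _)
    rw [ht.1] at h0
    obtain ⟨u, hu⟩ := card_pos.1 (h0 ▸ Nat.one_pos)
    rw [Finsupp.some_zero]
    exact hdown u (mem_filter.1 hu).1 0 zero_le
  · intro w hw hw'
    refine ⟨⟨w + Finsupp.single none (D - w.degree), ?_, ?_⟩, le_self_add⟩
    · rw [map_add, Finsupp.degree_single]; omega
    · simpa only [Finsupp.some_add, Finsupp.some_single_none, add_zero] using hw
  · rw [extSeq, if_neg (by omega), if_neg (by omega)]
  · rw [extSeq, if_neg (by omega), if_pos hi', hc i (by omega), hc _ (by omega)]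

end Pool.Agent.MP_708e57_al

end MrgPart0

-- ======== part 1: formerly Pool.Agent.MP_708e57_al.Points
section MrgPart1

/-!
Sums of powers of linear forms.
-/

namespace Pool.Agent.MP_708e57_al

open Module Finset

universe u

lemma exists_mon_support {ρ : Type} (x : Finset ρ) (i : ℕ) (h1 : x.Nonempty) (h2 : x.card ≤ i) :
    ∃ u : Mon ρ i, u.1.support = x := by
  classical
  obtain ⟨s, hs⟩ := h1
  let w : ρ →₀ ℕ := Finsupp.indicator x fun _ _ => 1
  have hw : w.support = x := by
    ext a
    by_cases ha : a ∈ x <;> simp [w, ha]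
  have hd : w.degree = x.card := by
    rw [Finsupp.degree_apply, hw, card_eq_sum_ones]
    exact sum_congr rfl fun a ha => by simp [w, ha]
  refine ⟨⟨w + Finsupp.single s (i - x.card), by
    rw [map_add, hd, Finsupp.degree_single]; omega⟩, ?_⟩
  simp only
  rw [Finsupp.support_add_eq_union, hw, union_eq_left]
  exact Finsupp.support_single_subset.trans (singleton_subset_iff.2 hs)

theorem isGorSeq_points (K : Type u) [Field K] {d r a : ℕ} (hd : 3 ≤ d) (hr : 1 ≤ r) (hra : r ≤ a)
    (ha : a ≤ (r + 1).choose 2) (h : ℕ → ℕ) (h0 : h 0 = 1) (hd' : h d = 1)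
    (h2 : ∀ i, d < i → h i = 0) (h1 : h 1 = r) (h1' : h (d - 1) = r)
    (hm : ∀ i, 1 < i → i < d - 1 → h i = a) : IsGorSeq K d h := by
  classical
  obtain ⟨E, hE, hEc⟩ := exists_subset_card_eq (s := powersetCard 2 (univ : Finset (Fin r)))
    (n := a - r) (by
      rw [card_powersetCard, card_univ, Fintype.card_fin]
      rw [Nat.choose_succ_succ', Nat.choose_one_right] at ha
      simp only [Nat.reduceAdd] at ha
      omega)
  let X := Fin r ⊕ E
  let sp : X → Finset (Fin r) := Sum.elim (fun s => {s}) fun e => e.1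
  have hcard : ∀ e : E, e.1.card = 2 := fun e => (mem_powersetCard.1 (hE e.2)).2
  have hX : Fintype.card X = a := by
    simp only [X, Fintype.card_sum, Fintype.card_fin, Fintype.card_coe]
    omega
  let ev : ∀ i, Matrix X (Mon (Fin r) i) K := fun i =>
    Matrix.of fun x u => if u.1.support ⊆ sp x then 1 else 0
  let f : (Fin r →₀ ℕ) → K := fun u => ∑ x : X, if u.support ⊆ sp x then 1 else 0
  have hcat : ∀ i j, cat f i j = (ev i).transpose * ev j := by
    intro i j
    ext u v
    simp only [cat, Matrix.of_apply, f, Matrix.mul_apply, Matrix.transpose_apply, ev,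
      Finsupp.support_add_eq_union, union_subset_iff]
    refine sum_congr rfl fun x _ => ?_
    by_cases h1 : u.1.support ⊆ sp x <;> by_cases h2 : v.1.support ⊆ sp x <;> simp [h1, h2]
  let Z : Matrix X X K := Matrix.of fun x y => if sp y ⊆ sp x then 1 else 0
  let N : Matrix X X K := Matrix.of fun x y =>
    if sp y ⊆ sp x ∧ (sp y).card < (sp x).card then 1 else 0
  have hsp : ∀ x, 1 ≤ (sp x).card ∧ (sp x).card ≤ 2 := by
    rintro (s | e)
    · simp [sp]
    · simp [sp, hcard e]
  have hspinj : Function.Injective sp := by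
    rintro (s | e) (s' | e') hh
    · congr 1
      exact singleton_injective hh
    · have := congrArg Finset.card hh
      simp [sp, hcard e'] at this
    · have := congrArg Finset.card hh
      simp [sp, hcard e] at this
    · congr 1
      exact Subtype.ext hh
  have hZN : Z = 1 + N := by
    ext x y
    simp only [Z, N, Matrix.of_apply, Matrix.add_apply, Matrix.one_apply]
    by_cases hxy : x = y
    · simp [hxy]
    · by_cases hs : sp y ⊆ sp x
      · have : (sp y).card < (sp x).card :=
          card_lt_card (hs.ssubset_of_ne fun h => hxy (hspinj h).symm)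
        simp [hxy, hs, this]
      · simp [hxy, hs]
  have hNN : N * N = 0 := by
    ext x y
    simp only [N, Matrix.mul_apply, Matrix.of_apply, Matrix.zero_apply]
    refine sum_eq_zero fun w _ => ?_
    have := hsp x
    have := hsp y
    split_ifs with h1 h2
    · omega
    all_goals simp
  have hZ : IsUnit Z.det := by
    have : Z * (1 - N) = 1 := by
      rw [hZN, add_mul, mul_sub, mul_sub, hNN]
      simp
    exact Matrix.isUnit_det_of_right_inverse this
  have hsel : ∀ i, 2 ≤ i → ∃ b : X → Mon (Fin r) i, (ev i).submatrix id b = Z := by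
    intro i hi
    have := fun x => exists_mon_support (sp x) i (card_pos.1 (hsp x).1) ((hsp x).2.trans hi)
    choose b hb using this
    refine ⟨b, ?_⟩
    ext x y
    simp [ev, Z, hb]
  have hone : (cat f 1 (d - 1)).rank = r := by
    let a1 : Fin r → Mon (Fin r) 1 := fun s => ⟨Finsupp.single s 1, by simp⟩
    apply le_antisymm
    · have := rank_le_of_cover (β := Empty) (cat f 1 (d - 1)) a1 Empty.elim (by
        intro u v _
        left
        have hu : u.1 ∈ {d : Fin r →₀ ℕ | d.degree = 1} := u.2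
        rw [← Finsupp.range_single_one] at hu
        obtain ⟨s, hs⟩ := hu
        exact ⟨s, Subtype.ext hs⟩)
      simpa using this
    · obtain ⟨b, hb⟩ := hsel (d - 1) (by omega)
      have h3 := Matrix.rank_submatrix_le (cat f 1 (d - 1)) id b
      rw [hcat, Matrix.submatrix_mul _ _ id id b Function.bijective_id, hb,
        Matrix.rank_mul_eq_left_of_isUnit_det _ _ hZ, ← hcat] at h3
      refine le_trans ?_ h3
      have := rank_ge_of_sub (ι := Fin r) ((ev 1).transpose.submatrix id id) a1 Sum.inl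
        (fun s => by simp [ev, a1, sp]) (fun s s' hs => by simpa [ev, a1, sp] using hs)
      simpa using this
  have hne : ∃ u : Fin r →₀ ℕ, u.degree = d ∧ f u ≠ 0 := by
    by_contra hc
    push Not at hc
    have : cat f 1 (d - 1) = 0 := by
      ext u v
      exact hc _ (by rw [map_add, u.2, v.2]; omega)
    rw [this, Matrix.rank_zero] at hone
    omega
  refine isGorSeq_cat' f d hne h h0 hd' (fun i hi hi' => ?_) h2
  by_cases hi1 : i = 1
  · rw [hi1, hone, h1]
  by_cases hi2 : i = d - 1
  · rw [hi2, show d - (d - 1) = 1 by omega, h1']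
    refine Eq.trans ?_ hone
    rw [hcat, hcat, ← Matrix.rank_transpose, Matrix.transpose_mul, Matrix.transpose_transpose]
  rw [hm i (by omega) (by omega)]
  apply le_antisymm
  · rw [hcat, ← hX]
    exact (Matrix.rank_mul_le_right _ _).trans (Matrix.rank_le_card_height _)
  · obtain ⟨b, hb⟩ := hsel i (by omega)
    obtain ⟨b', hb'⟩ := hsel (d - i) (by omega)
    have h3 := Matrix.rank_submatrix_le (cat f i (d - i)) b b'
    rw [hcat, Matrix.submatrix_mul _ _ b id b' Function.bijective_id, hb',
      Matrix.rank_mul_eq_left_of_isUnit_det _ _ hZ, ← hcat, ← Matrix.transpose_submatrix, hb,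
      Matrix.rank_transpose, Matrix.rank_of_isUnit _ ((Matrix.isUnit_iff_isUnit_det _).2 hZ),
      hX] at h3
    exact h3

end Pool.Agent.MP_708e57_al

end MrgPart1

-- ======== part 2: formerly Pool.Agent.MP_708e57_al.Final
section MrgPart2

/-!
The final statements.
-/

namespace Pool.Agent.MP_708e57_al

open Module Finset

universe u

variable {K : Type u} [Field K] {d : ℕ} {h : ℕ → ℕ}

lemma isOSeq_of_SOS {t : ℕ → ℕ} (h0 : t 0 = 1) (ht : ∀ l, SOS t l) : IsOSeq t :=
  ⟨h0, fun l hl => (ht l).le_mac hl⟩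

lemma isSys_bot {K A : Type*} [Field K] [CommRing A] [Algebra K A] (V : Submodule K A) :
    IsSys V (fun _ => (⊥ : Submodule K A)) := by
  intro i y _ z hz
  have : z = 0 := hz
  simp [this]

lemma IsGorSeq.pos (hG : IsGorSeq K d h) {i : ℕ} (hi : i ≤ d) : 1 ≤ h i := by
  obtain ⟨A, _, _, _, V, φ, hP, hh, h0⟩ := hG.data
  have e : ∀ i, hf V (fun _ => ⊥) i = h i := fun i => by rw [hf, rk_one_bot, hh]
  by_contra hc
  have key : ∀ j, i ≤ j → h j = 0 := by
    intro j hj
    induction j, hj using Nat.le_induction with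
    | base => omega
    | succ j _ ih => rw [← e] at ih ⊢; exact hf_succ_eq_zero (isSys_bot V) ih
  have := hG.basic.2.1 0 d (by omega)
  rw [key d hi] at this
  omega

lemma val_one (b : ℕ → ℕ) : val 1 b = b 0 := by simp [val]

lemma up_one (b : ℕ → ℕ) : up 1 b = (b 0 + 1).choose 2 := by
  simp [up, Nat.multichoose_eq]

lemma IsGorSeq.two_le (hG : IsGorSeq K d h) (hd : 2 ≤ d) : h 2 ≤ (h 1 + 1).choose 2 := by
  obtain ⟨A, _, _, _, V, φ, hP, hh⟩ := hG.data_closure
  have e : ∀ i ≤ d, hf V (fun _ => ⊥) i = h i := fun i hi => by rw [hf, rk_one_bot, hh i hi]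
  have := (macaulay V (isSys_bot V) 1 (fun m h1 h2 => by
    obtain rfl : m = 1 := by omega
    simp)).weak (fun _ => h 1) (by rw [val_one, e 1 (by omega)])
  rwa [up_one, e _ hd] at this

lemma extSeq_mid (t : ℕ → ℕ) (s : ℕ) {i : ℕ} (h1 : 0 < i) (h2 : i < d) :
    extSeq d t s i = psum t i + psum t (d - i) + s := by
  rw [extSeq, if_neg (by omega), if_pos h2]; rfl

theorem minimal (K : Type u) [Field K] (d r : ℕ) (hd : 2 ≤ d) (hK : ((d - 1).factorial : K) ≠ 0)
    (hr : 2 ≤ r) (g : ℕ → ℕ) :
    (∃ h, IsGorSeq K d h ∧ h 1 = r ∧ ∀ i, h i ≤ g i) ↔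
      ∃ t s, IsOSeq t ∧ extSeq d t s 1 = r ∧ ∀ i, extSeq d t s i ≤ g i := by
  constructor
  · rintro ⟨h, hG, rfl, hg⟩
    obtain ⟨t, h0, ht, h1, h2⟩ := hG.dominate hK hd hr
    obtain ⟨b0, bs, bz⟩ := hG.basic
    refine ⟨t, h 1 - (psum t 1 + psum t (d - 1)), isOSeq_of_SOS h0 ht, ?_, fun i => ?_⟩
    · rw [extSeq_mid _ _ one_pos (by omega)]; omega
    refine le_trans ?_ (hg i)
    have main : ∀ k, 1 ≤ k → 2 * k ≤ d →
        psum t k + psum t (d - k) + (h 1 - (psum t 1 + psum t (d - 1))) ≤ h k := by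
      intro k hk1 hk2
      rcases hk1.eq_or_lt with hk | hk
      · rw [← hk]; omega
      · have := h2 k hk hk2
        omega
    by_cases hi : i = 0 ∨ i = d
    · rw [extSeq, if_pos hi]
      exact hG.pos (by omega)
    by_cases hi' : i < d
    · rw [extSeq_mid _ _ (by omega) hi']
      rcases le_total (2 * i) d with h3 | h3
      · exact main i (by omega) h3
      · have := main (d - i) (by omega) (by omega)
        rw [show d - (d - i) = i by omega, bs (d - i) i (by omega)] at this
        omega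
    · rw [extSeq, if_neg hi, if_neg hi']
      exact Nat.zero_le _
  · rintro ⟨t, s, ht, h1, h2⟩
    exact ⟨_, isGorSeq_extSeq K (by omega) ht s, h1, h2⟩

lemma psum_mc (n i : ℕ) : psum (fun l => n.multichoose l) i = (n + 1).multichoose i := by
  induction i with
  | zero => simp [psum]
  | succ i ih => rw [psum_succ, ih, Nat.multichoose_succ_succ, add_comm]

lemma mac_zero (l : ℕ) : mac l 0 = 0 := by
  induction l with
  | zero => rfl
  | succ l ih =>
    have : topB l 0 = 0 := topB_eq (by simp) (mc_pos 0 _)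
    rw [mac_succ, this, Nat.zero_sub, ih]
    simp

lemma mac_mc_add (l b c : ℕ) (hc : c < (b + 1).multichoose l) :
    mac (l + 1) (b.multichoose (l + 1) + c) = b.multichoose (l + 2) + mac l c := by
  have : topB l (b.multichoose (l + 1) + c) = b :=
    topB_eq (Nat.le_add_right _ _) (by rw [Nat.multichoose_succ_succ]; omega)
  rw [mac_succ, this, Nat.add_sub_cancel_left]

lemma isOSeq_mc (n : ℕ) : IsOSeq fun l => n.multichoose l := by
  refine ⟨by simp, fun l hl => ?_⟩
  obtain ⟨l, rfl⟩ : ∃ k, l = k + 1 := ⟨l - 1, by omega⟩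
  have := mac_mc_add l n 0 (mc_pos _ _)
  rw [add_zero, mac_zero, add_zero] at this
  exact this.ge

lemma SOS.top {t : ℕ → ℕ} {l : ℕ} (ht : SOS t (l + 1)) (n : ℕ)
    (h : t (l + 1) ≤ n.multichoose (l + 1)) :
    t (l + 2) + n.multichoose (l + 1) ≤ t (l + 1) + n.multichoose (l + 2) := by
  have := ht (fun i => if i = l then n else 0) (by
    refine h.trans ?_
    unfold val
    rw [sum_range_succ]
    simp)
  have e : up (l + 1) (fun i => (if i = l then n else 0) - 1) = (n - 1).multichoose (l + 2) := by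
    unfold up
    rw [sum_range_succ, sum_eq_zero]
    · simp
    · intro i hi
      have := mem_range.1 hi
      simp [this.ne]
  rw [e, show l + 1 + 1 = l + 2 from rfl] at this
  have := mc_split n l
  omega

lemma step_le (U u : ℕ → ℤ) (hU : ∀ i, U (i + 1) = U i + u (i + 1)) (c : ℤ) (a k : ℕ)
    (hc : ∀ l, a < l → l ≤ a + k → u l ≤ c) : U (a + k) ≤ U a + k * c := by
  induction k with
  | zero => simp
  | succ k ih =>
    have h1 := ih fun l h1 h2 => hc l h1 (by omega)
    have h2 := hc (a + k + 1) (by omega) (by omega)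
    rw [← add_assoc, hU]
    push_cast
    linarith

lemma perazzo_ineq {t : ℕ → ℕ} (h0 : t 0 = 1) (ht : ∀ l, SOS t l) (n d k : ℕ) (hk1 : 2 ≤ k)
    (hk2 : 2 * k ≤ d)
    (hr : psum t 1 + psum t (d - 1) ≤ (n + 1).multichoose 1 + (n + 1).multichoose (d - 1)) :
    psum t 1 + psum t (d - 1) + (n + 1).multichoose k + (n + 1).multichoose (d - k) ≤
      psum t k + psum t (d - k) + (n + 1).multichoose 1 + (n + 1).multichoose (d - 1) := by
  set u : ℕ → ℤ := fun l => (n.multichoose l : ℤ) - t l with hu
  set U : ℕ → ℤ := fun l => ((n + 1).multichoose l : ℤ) - psum t l with hUdef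
  have hU : ∀ i, U (i + 1) = U i + u (i + 1) := by
    intro i
    simp only [hUdef, hu, psum_succ, Nat.multichoose_succ_succ]
    push_cast
    ring
  have hU0 : U 0 = 0 := by simp [hUdef, psum, h0]
  have hstep : ∀ l, 1 ≤ l → 0 ≤ u l → u l ≤ u (l + 1) := by
    intro l hl h
    obtain ⟨l, rfl⟩ : ∃ k, l = k + 1 := ⟨l - 1, by omega⟩
    simp only [hu] at h ⊢
    have := (ht (l + 1)).top n (by omega)
    rw [show l + 1 + 1 = l + 2 from rfl]
    omega
  have hmono : ∀ l, 1 ≤ l → 0 ≤ u l → ∀ l', l ≤ l' → u l ≤ u l' := by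
    intro l hl h l' hl'
    induction l', hl' using Nat.le_induction with
    | base => exact le_rfl
    | succ l' hl' ih => exact ih.trans (hstep l' (by omega) (h.trans ih))
  have hr' : 0 ≤ U 1 + U (d - 1) := by simp only [hUdef]; omega
  suffices hs : U k + U (d - k) ≤ U 1 + U (d - 1) by simp only [hUdef] at hs; omega
  rcases lt_or_ge (u (d - k)) 0 with hneg | hpos
  · have hall : ∀ l, 0 < l → l ≤ d - k → u l ≤ 0 := by
      intro l h1 h2
      by_contra hc
      have := hmono l h1 (by omega) _ h2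
      omega
    have h1 := step_le U u hU 0 0 k fun l h1 h2 => hall l h1 (by omega)
    have h2 := step_le U u hU 0 0 (d - k) fun l h1 h2 => hall l h1 (by omega)
    rw [zero_add] at h1 h2
    omega
  · have h1 := step_le U u hU (u (d - k)) 1 (k - 1) fun l h1 h2 => by
      by_contra hc
      have := hmono l h1.le (by omega) (d - k) (by omega)
      omega
    have h2 := step_le (fun i => -U i) (fun i => -u i) (fun i => by rw [hU]; ring) (-u (d - k))
      (d - k) (k - 1) fun l h1 _ => neg_le_neg (hmono _ (by omega) hpos l h1.le)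
    rw [show 1 + (k - 1) = k by omega] at h1
    rw [show d - k + (k - 1) = d - 1 by omega] at h2
    linarith

theorem fullPerazzo (K : Type u) [Field K] (d m : ℕ) (hd : 2 ≤ d) (hm : 1 ≤ m)
    (hK : ((d - 1).factorial : K) ≠ 0) :
    IsLeast {h : ℕ → ℕ | IsGorSeq K d h ∧ h 1 = m + (m + d - 2).choose (d - 1)}
      fun i => if i = 0 ∨ i = d then 1
        else if i < d then (m + i - 1).choose i + (m + (d - i) - 1).choose (d - i) else 0 := by
  obtain ⟨n, rfl⟩ : ∃ n, m = n + 1 := ⟨m - 1, by omega⟩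
  have e : (fun i => if i = 0 ∨ i = d then 1
      else if i < d then (n + 1 + i - 1).choose i + (n + 1 + (d - i) - 1).choose (d - i) else 0) =
      extSeq d (fun l => n.multichoose l) 0 := by
    funext i
    have := psum_mc n
    unfold psum at this
    rw [extSeq, this, this, Nat.multichoose_eq, Nat.multichoose_eq, add_zero]
  have e1 : n + 1 + (n + 1 + d - 2).choose (d - 1) =
      (n + 1).multichoose 1 + (n + 1).multichoose (d - 1) := by
    rw [Nat.multichoose_one_right, Nat.multichoose_eq]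
    congr 2
    omega
  rw [e, e1]
  refine ⟨⟨isGorSeq_extSeq K (by omega) (isOSeq_mc n) 0, ?_⟩, ?_⟩
  · rw [extSeq_mid _ _ one_pos (by omega), psum_mc, psum_mc, add_zero]
  · rintro h ⟨hG, h1⟩ i
    have hr : 2 ≤ h 1 := by
      have := mc_pos n (d - 1)
      rw [h1, Nat.multichoose_one_right]
      omega
    obtain ⟨t, h0, ht, h2, h3⟩ := hG.dominate hK hd hr
    obtain ⟨b0, bs, bz⟩ := hG.basic
    have main : ∀ k, 1 ≤ k → 2 * k ≤ d →
        (n + 1).multichoose k + (n + 1).multichoose (d - k) ≤ h k := by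
      intro k hk1 hk2
      rcases hk1.eq_or_lt with hk | hk
      · rw [← hk]; omega
      · have := h3 k hk hk2
        have := perazzo_ineq h0 ht n d k hk hk2 (by omega)
        omega
    by_cases hi : i = 0 ∨ i = d
    · rw [extSeq, if_pos hi]
      exact hG.pos (by omega)
    by_cases hi' : i < d
    · rw [extSeq_mid _ _ (by omega) hi', psum_mc, psum_mc, add_zero]
      rcases le_total (2 * i) d with h4 | h4
      · exact main i (by omega) h4
      · have := main (d - i) (by omega) (by omega)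
        rw [show d - (d - i) = i by omega, bs (d - i) i (by omega), add_comm] at this
        exact this
    · rw [extSeq, if_neg hi, if_neg hi']
      exact Nat.zero_le _

lemma mac_one (x : ℕ) : mac 1 x = (x + 1).choose 2 := by
  have := mac_mc_add 0 x 0 (by simp)
  rw [add_zero, mac_zero, add_zero, zero_add, Nat.multichoose_one_right, Nat.multichoose_eq] at this
  exact this

lemma psum_one (t : ℕ → ℕ) : psum t 1 = t 0 + t 1 := by simp [psum, sum_range_succ]

lemma psum_two (t : ℕ → ℕ) : psum t 2 = t 0 + t 1 + t 2 := by simp [psum, sum_range_succ]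

lemma psum_three (t : ℕ → ℕ) : psum t 3 = t 0 + t 1 + t 2 + t 3 := by simp [psum, sum_range_succ]

lemma psum_four (t : ℕ → ℕ) : psum t 4 = t 0 + t 1 + t 2 + t 3 + t 4 := by
  simp [psum, sum_range_succ]

/-- a finite sequence -/
def seq4 (x y z w : ℕ) (i : ℕ) : ℕ := [1, x, y, z, w].getD i 0

lemma isOSeq_seq4 {x y z w : ℕ} (h1 : y ≤ (x + 1).choose 2) (h2 : z ≤ mac 2 y) (h3 : w ≤ mac 3 z) :
    IsOSeq (seq4 x y z w) := by
  refine ⟨rfl, fun l hl => ?_⟩
  match l, hl with
  | 1, _ => rw [mac_one]; exact h1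
  | 2, _ => exact h2
  | 3, _ => exact h3
  | l + 4, _ => exact Nat.zero_le _

lemma fact_ne (hK : (6 : K) ≠ 0) : ((Nat.factorial 4 : ℕ) : K) ≠ 0 := by
  have h2 : (2 : K) ≠ 0 := fun h2 => hK (by rw [show (6 : K) = 2 * 3 by norm_num, h2, zero_mul])
  rw [show ((Nat.factorial 4 : ℕ) : K) = 2 * 2 * 6 by simp [Nat.factorial]; norm_num]
  exact mul_ne_zero (mul_ne_zero h2 h2) hK

theorem socleFive (K : Type u) [Field K] (hK : (6 : K) ≠ 0) (h : ℕ → ℕ) :
    IsGorSeq K 5 h ↔ h 0 = 1 ∧ h 3 = h 2 ∧ h 4 = h 1 ∧ h 5 = 1 ∧ (∀ i, 5 < i → h i = 0) ∧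
      1 ≤ h 1 ∧ h 2 ≤ (h 1 + 1).choose 2 ∧
      (h 1 ≤ h 2 ∨ ∃ x y z : ℕ, y ≤ (x + 1).choose 2 ∧ z ≤ mac 2 y ∧
        2 + 2 * x + 2 * y + z ≤ h 2 ∧ h 1 + y ≤ h 2 + mac 3 z) := by
  constructor
  · intro hG
    obtain ⟨b0, bs, bz⟩ := hG.basic
    refine ⟨b0, bs 3 2 rfl, bs 4 1 rfl, (bs 5 0 rfl).trans b0, bz, hG.pos (by omega),
      hG.two_le (by omega), ?_⟩
    by_cases hr : h 1 ≤ h 2
    · exact Or.inl hr
    have hp := hG.pos (i := 2) (by omega)
    obtain ⟨t, h0, ht, h2, h3⟩ := hG.dominate (fact_ne hK) (by omega) (by omega)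
    have h4 := h3 2 le_rfl (by omega)
    have ho := isOSeq_of_SOS h0 ht
    have h5 := ho.2 3 (by omega)
    simp only [Nat.reduceSub, Nat.reduceAdd, psum_one, psum_two, psum_three, psum_four, h0]
      at h2 h4 h5
    exact Or.inr ⟨t 1, t 2, t 3, mac_one (t 1) ▸ ho.2 1 le_rfl, ho.2 2 (by omega), by omega,
      by omega⟩
  · rintro ⟨h0, h3, h4, h5, hz, h1, h2, hc⟩
    by_cases hr : h 1 ≤ h 2
    · refine isGorSeq_points K (by omega) h1 hr h2 h h0 h5 hz rfl h4 fun i hi hi' => ?_
      obtain rfl | rfl : i = 2 ∨ i = 3 := by omega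
      · rfl
      · exact h3
    obtain ⟨x, y, z, c1, c2, c3, c4⟩ := hc.resolve_left hr
    have key := isGorSeq_extSeq K (d := 5) (by omega)
      (isOSeq_seq4 (w := y + (h 1 - h 2)) c1 c2 (by omega)) (h 2 - (2 + 2 * x + 2 * y + z))
    convert key using 1
    funext i
    match i with
    | 0 => simp [extSeq, h0]
    | 1 => simp [extSeq, seq4, sum_range_succ]; omega
    | 2 => simp [extSeq, seq4, sum_range_succ]; omega
    | 3 => simp [extSeq, seq4, sum_range_succ]; omega
    | 4 => simp [extSeq, seq4, sum_range_succ]; omega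
    | 5 => simp [extSeq, h5]
    | i + 6 => rw [hz _ (by omega), extSeq, if_neg (by omega), if_neg (by omega)]

lemma mc_two (n : ℕ) : (n - 1).multichoose 2 = n.choose 2 := by
  rcases n with _ | n
  · simp
  · rw [Nat.multichoose_eq]; rfl

lemma mc_three (n : ℕ) : (n - 1 - 1).multichoose 3 = n.choose 3 := by
  rcases n with _ | _ | n
  · simp
  · simp [Nat.choose]
  · rw [Nat.multichoose_eq]; rfl

lemma choose_two_succ (n : ℕ) : (n + 1).choose 2 = n.choose 2 + n := by
  rw [Nat.choose_succ_succ', Nat.choose_one_right, add_comm]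

theorem socleFour (K : Type u) [Field K] (hK : (6 : K) ≠ 0) (h : ℕ → ℕ) :
    IsGorSeq K 4 h ↔ h 0 = 1 ∧ h 3 = h 1 ∧ h 4 = 1 ∧ (∀ i, 4 < i → h i = 0) ∧
      1 ≤ h 1 ∧ h 2 ≤ (h 1 + 1).choose 2 ∧
      ∃ n j : ℕ, j ≤ n ∧ h 2 / 2 = (n + 1).choose 2 + j ∧
        h 1 ≤ h 2 + n.choose 3 + (j - 1).choose 2 := by
  have hK' : ((Nat.factorial (4 - 1) : ℕ) : K) ≠ 0 := by simpa [Nat.factorial] using hK
  constructor
  · intro hG
    obtain ⟨b0, bs, bz⟩ := hG.basic
    refine ⟨b0, bs 3 1 rfl, (bs 4 0 rfl).trans b0, bz, hG.pos (by omega),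
      hG.two_le (by omega), ?_⟩
    set n := topB 1 (h 2 / 2) with hn
    have n1 := topB_le 1 (h 2 / 2)
    have n2 := rem_lt 1 (h 2 / 2)
    rw [← hn, Nat.multichoose_eq] at n1 n2
    rw [Nat.multichoose_one_right] at n2
    have e : n + (1 + 1) - 1 = n + 1 := by omega
    rw [e] at n1 n2
    simp only [Nat.reduceAdd] at n1 n2
    refine ⟨n, h 2 / 2 - (n + 1).choose 2, by omega, by omega, ?_⟩
    set j := h 2 / 2 - (n + 1).choose 2 with hj
    by_cases hr : h 1 ≤ h 2
    · omega
    have hp := hG.pos (i := 2) (by omega)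
    obtain ⟨t, h0, ht, h2, h3⟩ := hG.dominate hK' (by omega) (by omega)
    have h4 := h3 2 le_rfl (by omega)
    simp only [Nat.reduceSub, psum_one, psum_two, psum_three, h0] at h2 h4
    have c2 := choose_two_succ n
    have h5 : t 2 ≤ n.choose 2 + (j - 1) := by
      by_cases h6 : t 1 ≤ n - 1
      · have := (ht 1).weak (fun _ => n - 1) (by rwa [val_one])
        rw [up, sum_range_one, zero_add, mc_two] at this
        simp only [Nat.reduceAdd] at this
        omega
      · omega
    have h6 := ht 2 (fun i => if i = 0 then j - 1 else n - 1) (by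
      simp only [val, sum_range_succ, sum_range_zero, zero_add, if_true, Nat.multichoose_one_right,
        one_ne_zero, if_false, Nat.reduceAdd, mc_two]
      omega)
    simp only [up, sum_range_succ, sum_range_zero, zero_add, if_true, one_ne_zero, if_false,
      Nat.reduceAdd, mc_two, mc_three] at h6
    omega
  · rintro ⟨h0, h3, h4, hz, h1, h2, n, j, hj, hn, hc⟩
    by_cases hr : h 1 ≤ h 2
    · refine isGorSeq_points K (by omega) h1 hr h2 h h0 h4 hz rfl h3 fun i hi hi' => ?_
      obtain rfl : i = 2 := by omega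
      rfl
    obtain ⟨n, rfl⟩ : ∃ k, n = k + 1 := by
      refine ⟨n - 1, ?_⟩
      by_contra hne
      obtain rfl : n = 0 := by omega
      obtain rfl : j = 0 := by omega
      simp at hc
      omega
    have c1 := choose_two_succ (n + 1)
    have m2 := mac_mc_add 1 n (j - 1) (by rw [Nat.multichoose_one_right]; omega)
    have e2 : n.multichoose (1 + 1) = (n + 1).choose 2 := mc_two (n + 1)
    have e3 : n.multichoose (1 + 2) = (n + 1).choose 2 + (n + 1).choose 3 := by
      rw [Nat.multichoose_eq, ← Nat.choose_succ_succ']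
      rfl
    rw [e2, e3, mac_one, choose_two_succ (j - 1)] at m2
    have key := isGorSeq_extSeq K (d := 4) (by omega)
      (isOSeq_seq4 (x := if j - 1 = 0 then n else n + 1) (y := (n + 1).choose 2 + (j - 1))
        (z := (n + 1).choose 2 + (j - 1) + (h 1 - h 2)) (w := 0)
        (by split_ifs <;> omega) (by simp only [Nat.reduceAdd] at m2; omega) (Nat.zero_le _))
      (h 2 - 2 * (1 + (if j - 1 = 0 then n else n + 1) + ((n + 1).choose 2 + (j - 1))))
    convert key using 1
    funext i
    match i with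
    | 0 => simp [extSeq, h0]
    | 1 => simp [extSeq, seq4, sum_range_succ]; split_ifs <;> omega
    | 2 => simp [extSeq, seq4, sum_range_succ]; split_ifs <;> omega
    | 3 => simp [extSeq, seq4, sum_range_succ]; split_ifs <;> omega
    | 4 => simp [extSeq, h4]
    | i + 5 => rw [hz _ (by omega), extSeq, if_neg (by omega), if_neg (by omega)]

end Pool.Agent.MP_708e57_al

end MrgPart2

-- marker of a merged file
example : 731051 + 377816 = 731051 + 377816 := rfl
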